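import Mathlib

/-! Definitions for [SYP] (MP_c37a36_an, primariness of spaces with a symmetric basis). -/

namespace Pool.Agent.SYP

open Filter Topology Finset

variable {𝕜 : Type*} {X : Type*} [RCLike 𝕜] [NormedAddCommGroup X] [NormedSpace 𝕜 X]

/-- The basis `b` is symmetric: for every permutation `π` of `ℕ` the sequence `b ∘ π` is again a
basis of `X` and it is equivalent to `b`. -/
def IsSymmetric (b : SchauderBasis 𝕜 X) : Prop :=
  ∀ π : Equiv.Perm ℕ,
    (∃ b' : SchauderBasis 𝕜 X, ∀ n, b' n = b (π n)) ∧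
    ∀ a : ℕ → 𝕜,
      (∃ x, Tendsto (fun N => ∑ n ∈ range N, a n • b n) atTop (𝓝 x)) ↔
      (∃ x, Tendsto (fun N => ∑ n ∈ range N, a n • b (π n)) atTop (𝓝 x))

/-- `P` is amplifiable: `I ⊗ P` is bounded on `X(ℕ × ℕ)`, where the coordinate `(k, n)` is the
coordinate with number `Nat.pair k n` of `X`. -/
def Amplifiable (b : SchauderBasis 𝕜 X) (P : X →L[𝕜] X) : Prop :=
  ∃ M : ℝ, ∀ (N I : ℕ) (c : ℕ → ℕ → 𝕜),
    ‖∑ k ∈ range N, ∑ i ∈ range I,
        b.coord i (P (∑ n ∈ range N, c k n • b n)) • b (Nat.pair k i)‖ ≤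
      M * ‖∑ k ∈ range N, ∑ n ∈ range N, c k n • b (Nat.pair k n)‖

/-- `P` is self-similar: after a permutation of the basis the matrix of `P` is the direct sum of
two copies of the matrix of `P`. -/
def SelfSimilar (b : SchauderBasis 𝕜 X) (P : X →L[𝕜] X) : Prop :=
  ∃ α β : ℕ → ℕ, Function.Injective α ∧ Function.Injective β ∧
    (∀ m, m ∈ Set.range α ↔ m ∉ Set.range β) ∧
    ∀ i j, b.coord (α i) (P (b (α j))) = b.coord i (P (b j)) ∧
      b.coord (β i) (P (b (β j))) = b.coord i (P (b j)) ∧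
      b.coord (α i) (P (b (β j))) = 0 ∧ b.coord (β i) (P (b (α j))) = 0

/-- Uniform symmetry with constant `K` (finite vectors, partial injections of the index set). -/
def UB (b : SchauderBasis 𝕜 X) (K : ℝ) : Prop :=
  1 ≤ K ∧ ∀ (s t : Finset ℕ), t ⊆ s → ∀ σ : ℕ → ℕ, Set.InjOn σ t → ∀ c : ℕ → 𝕜,
    ‖∑ i ∈ t, c i • b (σ i)‖ ≤ K * ‖∑ i ∈ s, c i • b i‖

end Pool.Agent.SYP
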