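import Mathlib
import Pool.Agent.SYP.Defs

namespace Pool.Agent.SYP

open Filter Topology Finset

variable {𝕜 : Type*} {X : Type*} [RCLike 𝕜] [NormedAddCommGroup X] [NormedSpace 𝕜 X]

/-- Operator with prescribed columns: `T x = lim_N ∑_{i<N} coord_i(x) v_i` (Cauchy, since
`‖∑_{i<N} - ∑_{i<M}‖ ≤ M ‖P_N x - P_M x‖`, apply `hv` to a sequence supported in `[M, N)`);
`continuousLinearMapOfTendsto` or `LinearMap.mkContinuous`; the norm bound is the limit of
`‖∑_{i<N} coord_i(x) v_i‖ ≤ M ‖P_N x‖`. (`M ≥ 0` follows from `hv`, since `b 0 ≠ 0`.) -/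
theorem exists_ofCols [CompleteSpace X] (b : SchauderBasis 𝕜 X) (v : ℕ → X) (M : ℝ)
    (hv : ∀ (N : ℕ) (c : ℕ → 𝕜), ‖∑ i ∈ range N, c i • v i‖ ≤ M * ‖∑ i ∈ range N, c i • b i‖) :
    ∃ T : X →L[𝕜] X, (∀ i, T (b i) = v i) ∧ ∀ x, ‖T x‖ ≤ M * ‖x‖ := by
  have ht : ∀ x : X, Tendsto (fun N => ∑ i ∈ range N, b.coord i x • b i) atTop (𝓝 x) := by
    intro x
    have h := SchauderBasis.tendsto_proj b x
    simpa only [SchauderBasis.proj_apply] using h
  have hdiff : ∀ (x : X) (m N : ℕ), m ≤ N →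
      ‖∑ i ∈ range N, b.coord i x • v i - ∑ i ∈ range m, b.coord i x • v i‖ ≤
        M * ‖∑ i ∈ range N, b.coord i x • b i - ∑ i ∈ range m, b.coord i x • b i‖ := by
    intro x m N hmN
    have key : ∀ w : ℕ → X, ∑ i ∈ range N, b.coord i x • w i - ∑ i ∈ range m, b.coord i x • w i =
        ∑ i ∈ range N, (if m ≤ i then b.coord i x else 0) • w i := by
      intro w
      rw [← Finset.sum_range_add_sum_Ico _ hmN,
        ← Finset.sum_range_add_sum_Ico (fun i => (if m ≤ i then b.coord i x else 0) • w i) hmN]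
      have e1 : ∑ i ∈ range m, (if m ≤ i then b.coord i x else 0) • w i = 0 := by
        refine Finset.sum_eq_zero fun i hi => ?_
        rw [Finset.mem_range] at hi
        rw [if_neg (by omega), zero_smul]
      have e2 : ∑ i ∈ Finset.Ico m N, (if m ≤ i then b.coord i x else 0) • w i =
          ∑ i ∈ Finset.Ico m N, b.coord i x • w i := by
        refine Finset.sum_congr rfl fun i hi => ?_
        rw [Finset.mem_Ico] at hi
        rw [if_pos hi.1]
      rw [e1, e2]
      abel
    rw [key v, key b]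
    exact hv N _
  have hMnn : 0 ≤ M := by
    have h := hv 1 (fun _ => 1)
    simp only [Finset.sum_range_one, one_smul] at h
    have h0 : b 0 ≠ 0 := (b.linearIndependent).ne_zero 0
    have h1 : 0 < ‖b 0‖ := norm_pos_iff.2 h0
    by_contra hneg
    rw [not_le] at hneg
    have h2 : M * ‖b 0‖ < 0 := mul_neg_of_neg_of_pos hneg h1
    have h3 := norm_nonneg (v 0)
    linarith
  have hcau : ∀ x : X, CauchySeq (fun N => ∑ i ∈ range N, b.coord i x • v i) := by
    intro x
    have hc := (ht x).cauchySeq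
    rw [Metric.cauchySeq_iff'] at hc ⊢
    intro ε hε
    obtain ⟨N, hN⟩ := hc (ε / (M + 1)) (by positivity)
    refine ⟨N, fun n hn => ?_⟩
    have h1 := hN n hn
    rw [dist_eq_norm] at h1 ⊢
    refine (hdiff x N n hn).trans_lt ?_
    have h2 : M * ‖∑ i ∈ range n, b.coord i x • b i - ∑ i ∈ range N, b.coord i x • b i‖ ≤
        M * (ε / (M + 1)) := mul_le_mul_of_nonneg_left h1.le hMnn
    refine h2.trans_lt ?_
    rw [mul_div_assoc', div_lt_iff₀ (by linarith)]
    nlinarith
  choose f hf using fun x => cauchySeq_tendsto_of_complete (hcau x)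
  have hfadd : ∀ x y, f (x + y) = f x + f y := by
    intro x y
    refine tendsto_nhds_unique (hf (x + y)) ?_
    have h := (hf x).add (hf y)
    refine h.congr fun N => ?_
    rw [← Finset.sum_add_distrib]
    refine Finset.sum_congr rfl fun i _ => ?_
    rw [map_add, add_smul]
  have hfsmul : ∀ (c : 𝕜) x, f (c • x) = c • f x := by
    intro c x
    refine tendsto_nhds_unique (hf (c • x)) ?_
    have h := (hf x).const_smul c
    refine h.congr fun N => ?_
    rw [Finset.smul_sum]
    refine Finset.sum_congr rfl fun i _ => ?_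
    rw [map_smul, smul_assoc]
  have hfn : ∀ x, ‖f x‖ ≤ M * ‖x‖ := by
    intro x
    refine le_of_tendsto_of_tendsto (hf x).norm ((ht x).norm.const_mul M) ?_
    exact Filter.Eventually.of_forall fun N => hv N _
  refine ⟨LinearMap.mkContinuous ⟨⟨f, hfadd⟩, hfsmul⟩ M hfn, fun i => ?_, hfn⟩
  show f (b i) = v i
  refine tendsto_nhds_unique (hf (b i)) ?_
  refine tendsto_const_nhds.congr' ?_
  filter_upwards [eventually_gt_atTop i] with N hN
  symm
  rw [Finset.sum_eq_single i]
  · rw [b.ortho]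
    simp
  · intro j _ hj
    rw [b.ortho]
    have e0 := Pi.single_eq_of_ne (M := fun _ => 𝕜) hj (1 : 𝕜)
    have e1 : (Pi.single i (1 : 𝕜) : ℕ → 𝕜) j = 0 := e0
    simp [hj]
  · intro h
    exact absurd (Finset.mem_range.2 hN) h

end Pool.Agent.SYP
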