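import Mathlib
import Pool.Agent.SYP.Defs
import Pool.Agent.SYP.R_cols
namespace Pool.Agent.SYP

open Filter Topology Finset

variable {𝕜 : Type*} {X : Type*} [RCLike 𝕜] [NormedAddCommGroup X] [NormedSpace 𝕜 X]

/-- Shift operators of an injection `σ` (`exists_ofCols` with `v n = b (σ n)`, resp. with
`v m = b (σ⁻¹ m)` for `m ∈ range σ` and `0` otherwise; the second bound is `UB` with
`t = {m < N, m ∈ range σ}` and the injection `σ⁻¹`, e.g. `Function.invFun σ`). -/
theorem exists_J [CompleteSpace X] (b : SchauderBasis 𝕜 X) {K : ℝ} (h : UB b K) (σ : ℕ → ℕ)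
    (hσ : Function.Injective σ) :
    ∃ J R : X →L[𝕜] X, (∀ n, J (b n) = b (σ n)) ∧ (∀ n, R (b (σ n)) = b n) ∧
      ∀ m, m ∉ Set.range σ → R (b m) = 0 := by
  classical
  obtain ⟨hK, hU⟩ := h
  obtain ⟨J, hJ, -⟩ := exists_ofCols b (fun n => b (σ n)) K (fun N c =>
    hU (range N) (range N) (Finset.Subset.refl _) σ (hσ.injOn) c)
  obtain ⟨R, hR, -⟩ := exists_ofCols b
    (fun m => if m ∈ Set.range σ then b (Function.invFun σ m) else 0) K (fun N c => by
      have h1 : ∑ i ∈ range N, c i • (if i ∈ Set.range σ then b (Function.invFun σ i) else 0) =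
          ∑ i ∈ (range N).filter (fun i => i ∈ Set.range σ), c i • b (Function.invFun σ i) := by
        rw [Finset.sum_filter]
        refine Finset.sum_congr rfl fun i _ => ?_
        split_ifs
        · rfl
        · rw [smul_zero]
      rw [h1]
      refine hU (range N) _ (Finset.filter_subset _ _) _ ?_ c
      intro x hx y hy hxy
      have hx1 : σ (Function.invFun σ x) = x := Function.invFun_eq (Finset.mem_filter.1 hx).2
      have hy1 : σ (Function.invFun σ y) = y := Function.invFun_eq (Finset.mem_filter.1 hy).2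
      rw [← hx1, ← hy1, hxy])
  refine ⟨J, R, hJ, fun n => ?_, fun m hm => ?_⟩
  · rw [hR, if_pos ⟨n, rfl⟩, Function.leftInverse_invFun hσ n]
  · rw [hR, if_neg hm]

end Pool.Agent.SYP
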