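import Mathlib
import Pool.Agent.SYP.Defs

namespace Pool.Agent.SYP

open Filter Topology Finset

variable {𝕜 : Type*} {X : Type*} [RCLike 𝕜] [NormedAddCommGroup X] [NormedSpace 𝕜 X]

private theorem R_bb_ne (b : SchauderBasis 𝕜 X) (i : ℕ) : b i ≠ 0 := by
  intro h0
  have h := b.ortho i i
  have h' : b.coord i (b i) = 1 := by simpa using h
  rw [h0, map_zero] at h'
  exact one_ne_zero h'.symm

private theorem R_bb_norm (b : SchauderBasis 𝕜 X) {K : ℝ} (h : UB b K) (i j : ℕ) :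
    ‖b j‖ ≤ K * ‖b i‖ := by
  have := h.2 {i} {i} (Finset.Subset.refl _) (fun _ => j) (by simp) (fun _ => 1)
  simpa using this

private theorem R_bb_coord (b : SchauderBasis 𝕜 X) {K : ℝ} (h : UB b K) (i : ℕ) (x : X) :
    ‖b.coord i x‖ * ‖b i‖ ≤ K * ‖x‖ := by
  have hlim : Tendsto (fun N => K * ‖b.proj N x‖) atTop (𝓝 (K * ‖x‖)) :=
    ((SchauderBasis.tendsto_proj b x).norm).const_mul K
  refine ge_of_tendsto hlim ?_
  filter_upwards [eventually_gt_atTop i] with N hN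
  have := h.2 (range N) {i} (by simpa using hN) id (by simp) (fun n => b.coord n x)
  rw [SchauderBasis.proj_apply]
  simpa [norm_smul] using this

/-- Under `UB` the basis and the coordinate functionals are bounded:
`‖b_i‖ ≤ K ‖b_0‖`, `‖b_0‖ ≤ K ‖b_i‖` (`s = t = {i}` and an injection), and
`|coord_i x| ‖b_i‖ ≤ K ‖x‖` (`t = {i} ⊆ s = range N`, limit `N → ∞` with `SchauderBasis.tendsto_proj`).
So `coord_i x → 0`: `‖coord_i x b_i‖ = ‖P_{i+1} x - P_i x‖ → 0` and `‖b_i‖ ≥ ‖b_0‖ / K > 0`. -/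
theorem exists_basis_bound (b : SchauderBasis 𝕜 X) {K : ℝ} (h : UB b K) :
    (∃ B : ℝ, 0 < B ∧ (∀ i, ‖b i‖ ≤ B) ∧ ∀ (i : ℕ) (x : X), ‖b.coord i x‖ ≤ B * ‖x‖) ∧
      ∀ x : X, Tendsto (fun i => b.coord i x) atTop (𝓝 0) := by
  have hK : 0 < K := lt_of_lt_of_le one_pos h.1
  have hb0 : 0 < ‖b 0‖ := norm_pos_iff.2 (R_bb_ne b 0)
  have hbi : ∀ i, ‖b 0‖ / K ≤ ‖b i‖ := fun i => by
    rw [div_le_iff₀ hK, mul_comm]; exact R_bb_norm b h i 0
  have hbk : 0 < ‖b 0‖ / K := div_pos hb0 hK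
  refine ⟨⟨max (K * ‖b 0‖) (K / (‖b 0‖ / K)), ?_, ?_, ?_⟩, ?_⟩
  · exact lt_max_of_lt_left (mul_pos hK hb0)
  · exact fun i => le_max_of_le_left (R_bb_norm b h 0 i)
  · intro i x
    refine le_trans ?_ (mul_le_mul_of_nonneg_right (le_max_right _ _) (norm_nonneg x))
    rw [div_mul_eq_mul_div, le_div_iff₀ hbk]
    exact le_trans (mul_le_mul_of_nonneg_left (hbi i) (norm_nonneg _)) (R_bb_coord b h i x)
  · intro x
    have h1 : Tendsto (fun i => b.proj (i + 1) x - b.proj i x) atTop (𝓝 0) := by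
      have ha := SchauderBasis.tendsto_proj b x
      have hc := (ha.comp (tendsto_add_atTop_nat 1)).sub ha
      rw [sub_self] at hc
      exact hc
    have h2 : Tendsto (fun i => ‖b.coord i x‖ * ‖b i‖) atTop (𝓝 0) := by
      have := h1.norm
      rw [norm_zero] at this
      refine this.congr fun i => ?_
      rw [SchauderBasis.proj_apply, SchauderBasis.proj_apply, Finset.sum_range_succ,
        add_sub_cancel_left, norm_smul]
    have h3 : Tendsto (fun i => (‖b.coord i x‖ * ‖b i‖) / (‖b 0‖ / K)) atTop (𝓝 0) := by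
      have := h2.div_const (‖b 0‖ / K)
      rwa [zero_div] at this
    refine squeeze_zero_norm (fun i => ?_) h3
    rw [le_div_iff₀ hbk]
    exact mul_le_mul_of_nonneg_left (hbi i) (norm_nonneg _)

end Pool.Agent.SYP
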