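import Mathlib
import Pool.Agent.SYP.Defs

namespace Pool.Agent.SYP

open Filter Topology Finset

variable {𝕜 : Type*} {X : Type*} [RCLike 𝕜] [NormedAddCommGroup X] [NormedSpace 𝕜 X]

/-- Operators are determined by their values on the basis (`SchauderBasis.tendsto_proj`). -/
theorem ext_basis (b : SchauderBasis 𝕜 X) {Y : Type*} [NormedAddCommGroup Y] [NormedSpace 𝕜 Y]
    (S T : X →L[𝕜] Y) (h : ∀ i, S (b i) = T (b i)) : S = T := by
  ext x
  have hx : Tendsto (fun n => SchauderBasis.proj b n x) atTop (𝓝 x) :=
    SchauderBasis.tendsto_proj b x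
  have hS : Tendsto (fun n => S (SchauderBasis.proj b n x)) atTop (𝓝 (S x)) :=
    (S.continuous.tendsto x).comp hx
  have hT : Tendsto (fun n => T (SchauderBasis.proj b n x)) atTop (𝓝 (T x)) :=
    (T.continuous.tendsto x).comp hx
  have hST : (fun n => S (SchauderBasis.proj b n x)) = fun n => T (SchauderBasis.proj b n x) := by
    funext n
    simp only [SchauderBasis.proj_apply, map_sum, map_smul, h]
  rw [hST] at hS
  exact tendsto_nhds_unique hS hT

end Pool.Agent.SYP
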