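import Mathlib
import Pool.Agent.SYP.Defs

namespace Pool.Agent.SYP

open Filter Topology Finset

variable {𝕜 : Type*} {X : Type*} [RCLike 𝕜] [NormedAddCommGroup X] [NormedSpace 𝕜 X]

/-- Eilenberg swindle, pure algebra. `(x, y) ↦ (1-q) x + s q x + j y` is an isomorphism
`X × range P → X` with inverse `u ↦ ((1-q) u + s' q u, r q u)` (`q² = q`; check: `q u = s q x + j y`,
`(1-q) u = (1-q) x`, `s' q u = q x`, `r q u = y`; and conversely
`(1-q) ((1-q) u + s' q u) = (1-q) u` because `q s' q = s' q`, `s q s' q u = s s' q u`,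
`s s' + j r = 1`). `r q u ∈ range P` because `r q = P r`. -/
theorem absorb (P q s s' j r : X →L[𝕜] X) (hP : P ∘L P = P) (hq : q ∘L q = q)
    (h1 : s' ∘L s = ContinuousLinearMap.id 𝕜 X) (h2 : r ∘L j = ContinuousLinearMap.id 𝕜 X)
    (h3 : r ∘L s = 0) (h4 : s' ∘L j = 0) (h5 : s ∘L s' + j ∘L r = ContinuousLinearMap.id 𝕜 X)
    (h6 : q ∘L s = s ∘L q) (h7 : s' ∘L q = q ∘L s') (h8 : q ∘L j = j ∘L P)
    (h9 : r ∘L q = P ∘L r) : Nonempty (X ≃L[𝕜] X × LinearMap.range P.toLinearMap) := by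
  have kP : ∀ x, P (P x) = P x := fun x => DFunLike.congr_fun hP x
  have kq : ∀ x, q (q x) = q x := fun x => DFunLike.congr_fun hq x
  have k1 : ∀ x, s' (s x) = x := fun x => DFunLike.congr_fun h1 x
  have k2 : ∀ x, r (j x) = x := fun x => DFunLike.congr_fun h2 x
  have k3 : ∀ x, r (s x) = 0 := fun x => DFunLike.congr_fun h3 x
  have k4 : ∀ x, s' (j x) = 0 := fun x => DFunLike.congr_fun h4 x
  have k5 : ∀ x, s (s' x) + j (r x) = x := fun x => DFunLike.congr_fun h5 x
  have k6 : ∀ x, q (s x) = s (q x) := fun x => DFunLike.congr_fun h6 x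
  have k7 : ∀ x, s' (q x) = q (s' x) := fun x => DFunLike.congr_fun h7 x
  have k8 : ∀ x, q (j x) = j (P x) := fun x => DFunLike.congr_fun h8 x
  have k9 : ∀ x, r (q x) = P (r x) := fun x => DFunLike.congr_fun h9 x
  let f1 : X →L[𝕜] X × LinearMap.range P.toLinearMap :=
    (ContinuousLinearMap.id 𝕜 X - q + s' ∘L q).prod
      ((r ∘L q).codRestrict (LinearMap.range P.toLinearMap) (fun u => ⟨r u, (k9 u).symm⟩))
  let f2 : X × LinearMap.range P.toLinearMap →L[𝕜] X :=
    (ContinuousLinearMap.id 𝕜 X - q + s ∘L q) ∘L ContinuousLinearMap.fst 𝕜 X _ +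
      (j ∘L (LinearMap.range P.toLinearMap).subtypeL) ∘L ContinuousLinearMap.snd 𝕜 X _
  have e1 : ∀ u, (f1 u).1 = u - q u + s' (q u) := fun u => rfl
  have e2 : ∀ u, ((f1 u).2 : X) = r (q u) := fun u => rfl
  have e3 : ∀ w : X × LinearMap.range P.toLinearMap, f2 w = w.1 - q w.1 + s (q w.1) + j (w.2 : X) :=
    fun w => rfl
  refine ⟨ContinuousLinearEquiv.equivOfInverse f1 f2 ?_ ?_⟩
  · intro u
    rw [e3, e1, e2]
    have a1 : q (u - q u + s' (q u)) = s' (q u) := by
      rw [map_add, map_sub, kq, sub_self, zero_add, ← k7, kq]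
    rw [a1]
    have a2 := k5 (q u)
    calc u - q u + s' (q u) - s' (q u) + s (s' (q u)) + j (r (q u))
        = u - q u + (s (s' (q u)) + j (r (q u))) := by abel
      _ = u := by rw [a2]; abel
  · intro w
    have hy : P (w.2 : X) = w.2 := by
      obtain ⟨z, hz⟩ := w.2.2
      rw [← hz]
      exact kP z
    have a1 : q (f2 w) = s (q w.1) + j (w.2 : X) := by
      rw [e3, map_add, map_add, map_sub, kq, sub_self, zero_add, k6, kq, k8, hy]
    refine Prod.ext ?_ (Subtype.ext ?_)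
    · rw [e1, a1, map_add, k1, k4, add_zero, e3]
      abel
    · rw [e2, a1, map_add, k3, k2, zero_add]

end Pool.Agent.SYP
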