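import Mathlib
import Pool.Agent.SYP.Defs
import Pool.Agent.SYP.R_swin
import Pool.Agent.SYP.R_J
import Pool.Agent.SYP.R_cols
import Pool.Agent.SYP.R_ext
import Pool.Agent.SYP.R_bb
namespace Pool.Agent.SYP

open Filter Topology Finset

variable {𝕜 : Type*} {X : Type*} [RCLike 𝕜] [NormedAddCommGroup X] [NormedSpace 𝕜 X]

private theorem amp_sum {Y : Type*} [AddCommMonoid Y] (N : ℕ) (g : ℕ → Y) :
    ∑ k ∈ range N, ∑ n ∈ range N, (if Nat.pair k n < N then g (Nat.pair k n) else 0)
      = ∑ m ∈ range N, g m := by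
  rw [← Finset.sum_product', ← Finset.sum_filter
    (s := range N ×ˢ range N) (p := fun x : ℕ × ℕ => Nat.pair x.1 x.2 < N)
    (f := fun x : ℕ × ℕ => g (Nat.pair x.1 x.2))]
  refine Finset.sum_bij (fun x _ => Nat.pair x.1 x.2) ?_ ?_ ?_ ?_
  · intro x hx
    rw [Finset.mem_filter] at hx
    exact Finset.mem_range.mpr hx.2
  · intro x _ y _ hxy
    have h1 := congrArg Nat.unpair hxy
    simp only [Nat.unpair_pair] at h1
    exact Prod.ext (by simpa using congrArg Prod.fst h1) (by simpa using congrArg Prod.snd h1)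
  · intro m hm
    have hm' := Finset.mem_range.mp hm
    refine ⟨m.unpair, ?_, Nat.pair_unpair m⟩
    rw [Finset.mem_filter, Finset.mem_product]
    refine ⟨⟨Finset.mem_range.mpr ?_, Finset.mem_range.mpr ?_⟩, ?_⟩
    · exact lt_of_le_of_lt (Nat.unpair_left_le m) hm'
    · exact lt_of_le_of_lt (Nat.unpair_right_le m) hm'
    · show Nat.pair m.unpair.1 m.unpair.2 < N
      rw [Nat.pair_unpair]; exact hm'
  · intro x _
    rfl

private theorem amp_inj0 (k : ℕ) : Function.Injective (fun n => Nat.pair k n) := by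
  intro a c hac
  have h1 := congrArg Nat.unpair hac
  simp only [Nat.unpair_pair] at h1
  exact congrArg Prod.snd h1

private theorem amp_inj1 : Function.Injective
    (fun m : ℕ => Nat.pair (m.unpair.1 + 1) m.unpair.2) := by
  intro a c hac
  have h1 := congrArg Nat.unpair hac
  simp only [Nat.unpair_pair] at h1
  have h2 : a.unpair.1 + 1 = c.unpair.1 + 1 := congrArg Prod.fst h1
  have h3 : a.unpair.2 = c.unpair.2 := (Prod.ext_iff.mp h1).2
  have h4 : a.unpair = c.unpair := Prod.ext (by omega) h3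
  rw [← Nat.pair_unpair a, ← Nat.pair_unpair c, h4]

/-- Amplifiable projections are absorbed. Let `J_k` be the shift operator of `n ↦ pair k n`
(`exists_J`; choose them with `choose`). `q` = the operator with columns
`q b_(pair k n) = J_k (P b_n)` (`exists_ofCols`; for the bound write a finite vector as
`∑_{k<N} ∑_{n<N} c k n b_(pair k n)`, approximate `J_k P (∑_n c k n b_n)` by its partial sums
`∑_{i<I} coord_i(P ..) b_(pair k i)`, `I → ∞`, and use `hA`). `s, s'` = shift operators of
`pair k n ↦ pair (k+1) n` (i.e. `m ↦ pair (m.unpair.1 + 1) m.unpair.2`), `j, r` = those of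
`n ↦ pair 0 n`. All relations of `absorb` are checked on the basis (`ext_basis`); e.g. `q² = q`:
`q b_(pair k n) = J_k P b_n`, `q J_k = J_k P` (on the basis), so `q q b = J_k P P b_n`. -/
theorem amp_absorb [CompleteSpace X] (b : SchauderBasis 𝕜 X) {K : ℝ} (h : UB b K)
    (P : X →L[𝕜] X) (hP : P ∘L P = P) (hA : Amplifiable b P) :
    Nonempty (X ≃L[𝕜] X × LinearMap.range P.toLinearMap) := by
  choose J R hJ hR hR0 using fun k : ℕ => exists_J b h (fun n => Nat.pair k n) (amp_inj0 k)
  obtain ⟨s, s', hs, hs', hs0⟩ := exists_J b h _ amp_inj1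
  obtain ⟨M, hM⟩ := hA
  have hbound : ∀ (N : ℕ) (c : ℕ → 𝕜),
      ‖∑ i ∈ range N, c i • (J i.unpair.1 (P (b i.unpair.2)))‖ ≤
        M * ‖∑ i ∈ range N, c i • b i‖ := by
    intro N c
    set c' : ℕ → ℕ → 𝕜 := fun k n => if Nat.pair k n < N then c (Nat.pair k n) else 0 with hc'
    have e1 : ∑ i ∈ range N, c i • b i
        = ∑ k ∈ range N, ∑ n ∈ range N, c' k n • b (Nat.pair k n) := by
      rw [← amp_sum N (fun m => c m • b m)]
      refine Finset.sum_congr rfl fun k _ => Finset.sum_congr rfl fun n _ => ?_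
      simp only [hc']
      split_ifs <;> simp
    have e2 : ∑ i ∈ range N, c i • (J i.unpair.1 (P (b i.unpair.2)))
        = ∑ k ∈ range N, J k (P (∑ n ∈ range N, c' k n • b n)) := by
      rw [← amp_sum N (fun m => c m • (J m.unpair.1 (P (b m.unpair.2))))]
      refine Finset.sum_congr rfl fun k _ => ?_
      rw [map_sum, map_sum]
      refine Finset.sum_congr rfl fun n _ => ?_
      rw [map_smul, map_smul]
      simp only [hc', Nat.unpair_pair]
      split_ifs <;> simp
    rw [e1, e2]
    have hlim : Tendsto (fun I : ℕ => ∑ k ∈ range N, ∑ i ∈ range I,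
        b.coord i (P (∑ n ∈ range N, c' k n • b n)) • b (Nat.pair k i)) atTop
        (𝓝 (∑ k ∈ range N, J k (P (∑ n ∈ range N, c' k n • b n)))) := by
      refine tendsto_finsetSum _ fun k _ => ?_
      have h1 := ((J k).continuous.tendsto _).comp
        (SchauderBasis.tendsto_proj b (P (∑ n ∈ range N, c' k n • b n)))
      refine h1.congr fun I => ?_
      show J k (SchauderBasis.proj b I (P (∑ n ∈ range N, c' k n • b n))) = _
      rw [SchauderBasis.proj_apply, map_sum]
      refine Finset.sum_congr rfl fun i _ => ?_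
      rw [map_smul, hJ k]
    exact le_of_tendsto hlim.norm (Filter.Eventually.of_forall fun I => hM N I c')
  obtain ⟨q, hq, -⟩ := exists_ofCols b (fun i => J i.unpair.1 (P (b i.unpair.2))) M hbound
  have hqp : ∀ k n, q (b (Nat.pair k n)) = J k (P (b n)) := by
    intro k n
    rw [hq]
    simp only [Nat.unpair_pair]
  have hsp : ∀ k n, s (b (Nat.pair k n)) = b (Nat.pair (k + 1) n) := by
    intro k n
    rw [hs]
    simp only [Nat.unpair_pair]
  have hs'p : ∀ k n, s' (b (Nat.pair (k + 1) n)) = b (Nat.pair k n) := by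
    intro k n
    have h1 := hs' (Nat.pair k n)
    simp only [Nat.unpair_pair] at h1
    exact h1
  have hs'0 : ∀ n, s' (b (Nat.pair 0 n)) = 0 := by
    intro n
    apply hs0
    rintro ⟨m, hm⟩
    have h1 := congrArg Nat.unpair hm
    simp only [Nat.unpair_pair] at h1
    have h2 : m.unpair.1 + 1 = 0 := congrArg Prod.fst h1
    omega
  have hr0 : ∀ k n, R 0 (b (Nat.pair (k + 1) n)) = 0 := by
    intro k n
    apply hR0 0
    rintro ⟨m, hm⟩
    have h1 := congrArg Nat.unpair hm
    simp only [Nat.unpair_pair] at h1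
    have h2 : 0 = k + 1 := congrArg Prod.fst h1
    omega
  have hpair : ∀ m : ℕ, ∃ k n, m = Nat.pair k n := fun m =>
    ⟨m.unpair.1, m.unpair.2, (Nat.pair_unpair m).symm⟩
  -- composite relations on the columns
  have qJ : ∀ (k : ℕ) (x : X), q (J k x) = J k (P x) := by
    intro k x
    have h1 : q ∘L J k = J k ∘L P := by
      apply ext_basis b
      intro i
      show q (J k (b i)) = J k (P (b i))
      rw [hJ k, hqp]
    exact DFunLike.congr_fun h1 x
  have sJ : ∀ (k : ℕ) (x : X), s (J k x) = J (k + 1) x := by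
    intro k x
    have h1 : s ∘L J k = J (k + 1) := by
      apply ext_basis b
      intro i
      show s (J k (b i)) = J (k + 1) (b i)
      rw [hJ k, hJ (k + 1), hsp]
    exact DFunLike.congr_fun h1 x
  have s'J : ∀ (k : ℕ) (x : X), s' (J (k + 1) x) = J k x := by
    intro k x
    have h1 : s' ∘L J (k + 1) = J k := by
      apply ext_basis b
      intro i
      show s' (J (k + 1) (b i)) = J k (b i)
      rw [hJ k, hJ (k + 1), hs'p]
    exact DFunLike.congr_fun h1 x
  have s'J0 : ∀ x : X, s' (J 0 x) = 0 := by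
    intro x
    have h1 : s' ∘L J 0 = 0 := by
      apply ext_basis b
      intro i
      show s' (J 0 (b i)) = 0
      rw [hJ 0, hs'0]
    exact DFunLike.congr_fun h1 x
  have rJ0 : ∀ x : X, R 0 (J 0 x) = x := by
    intro x
    have h1 : R 0 ∘L J 0 = ContinuousLinearMap.id 𝕜 X := by
      apply ext_basis b
      intro i
      show R 0 (J 0 (b i)) = b i
      rw [hJ 0]
      exact hR 0 i
    exact DFunLike.congr_fun h1 x
  have rJ : ∀ (k : ℕ) (x : X), R 0 (J (k + 1) x) = 0 := by
    intro k x
    have h1 : R 0 ∘L J (k + 1) = 0 := by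
      apply ext_basis b
      intro i
      show R 0 (J (k + 1) (b i)) = 0
      rw [hJ (k + 1), hr0]
    exact DFunLike.congr_fun h1 x
  refine absorb P q s s' (J 0) (R 0) hP ?_ ?_ ?_ ?_ ?_ ?_ ?_ ?_ ?_ ?_
  · apply ext_basis b
    intro m
    obtain ⟨k, n, rfl⟩ := hpair m
    show q (q (b (Nat.pair k n))) = q (b (Nat.pair k n))
    rw [hqp, qJ]
    have h1 := DFunLike.congr_fun hP (b n)
    exact congrArg (J k) h1
  · apply ext_basis b
    intro m
    obtain ⟨k, n, rfl⟩ := hpair m
    show s' (s (b (Nat.pair k n))) = b (Nat.pair k n)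
    rw [hsp, hs'p]
  · apply ext_basis b
    intro m
    show R 0 (J 0 (b m)) = b m
    exact rJ0 _
  · apply ext_basis b
    intro m
    obtain ⟨k, n, rfl⟩ := hpair m
    show R 0 (s (b (Nat.pair k n))) = 0
    rw [hsp, hr0]
  · apply ext_basis b
    intro m
    show s' (J 0 (b m)) = 0
    exact s'J0 _
  · apply ext_basis b
    intro m
    obtain ⟨k, n, rfl⟩ := hpair m
    show s (s' (b (Nat.pair k n))) + J 0 (R 0 (b (Nat.pair k n))) = b (Nat.pair k n)
    rcases k with _ | k
    · have h1 : R 0 (b (Nat.pair 0 n)) = b n := hR 0 n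
      rw [hs'0, h1, map_zero, zero_add, hJ 0]
    · rw [hs'p, hr0, map_zero, add_zero, hsp]
  · apply ext_basis b
    intro m
    obtain ⟨k, n, rfl⟩ := hpair m
    show q (s (b (Nat.pair k n))) = s (q (b (Nat.pair k n)))
    rw [hsp, hqp, hqp, sJ]
  · apply ext_basis b
    intro m
    obtain ⟨k, n, rfl⟩ := hpair m
    show s' (q (b (Nat.pair k n))) = q (s' (b (Nat.pair k n)))
    rcases k with _ | k
    · rw [hqp, s'J0, hs'0, map_zero]
    · rw [hqp, s'J, hs'p, hqp]
  · apply ext_basis b
    intro m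
    show q (J 0 (b m)) = J 0 (P (b m))
    exact qJ 0 _
  · apply ext_basis b
    intro m
    obtain ⟨k, n, rfl⟩ := hpair m
    show R 0 (q (b (Nat.pair k n))) = P (R 0 (b (Nat.pair k n)))
    rcases k with _ | k
    · have h1 : R 0 (b (Nat.pair 0 n)) = b n := hR 0 n
      rw [hqp, rJ0, h1]
    · rw [hqp, rJ, hr0, map_zero]

end Pool.Agent.SYP
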