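import Mathlib
import Pool.Agent.SYP.Defs
import Pool.Agent.SYP.R_bb
namespace Pool.Agent.SYP

open Filter Topology Finset

variable {𝕜 : Type*} {X : Type*} [RCLike 𝕜] [NormedAddCommGroup X] [NormedSpace 𝕜 X]

private theorem ampc_sum {Y : Type*} [AddCommMonoid Y] (S : Finset (ℕ × ℕ)) (g : ℕ → Y) :
    ∑ m ∈ S.image (fun p : ℕ × ℕ => Nat.pair p.1 p.2), g m = ∑ p ∈ S, g (Nat.pair p.1 p.2) := by
  apply Finset.sum_image
  intro x _ y _ hxy
  have h1 := congrArg Nat.unpair hxy
  simp only [Nat.unpair_pair] at h1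
  exact Prod.ext (by simpa using congrArg Prod.fst h1) (by simpa using congrArg Prod.snd h1)

/-- The complementary projection is amplifiable too: the vector of `1 - P` is
`∑_{k<N} ∑_{i<min I N} c k i b_(pair k i)` (coordinates of `∑_{n<N} c k n b_n`) minus the vector of
`P`; the first has norm `≤ K ‖∑_{k<N} ∑_{n<N} c k n b_(pair k n)‖` by `UB` (write both double sums as
sums over finsets of `ℕ` with `Nat.pair`, `t ⊆ s`, `σ = id`). -/
theorem amp_compl (b : SchauderBasis 𝕜 X) {K : ℝ} (h : UB b K) (P : X →L[𝕜] X)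
    (hA : Amplifiable b P) : Amplifiable b (ContinuousLinearMap.id 𝕜 X - P) := by
  obtain ⟨M, hM⟩ := hA
  refine ⟨K + M, fun N I c => ?_⟩
  have hcoord : ∀ k i, b.coord i (∑ n ∈ range N, c k n • b n) = if i < N then c k i else 0 := by
    intro k i
    rw [map_sum]
    have h1 : ∀ n ∈ range N, b.coord i (c k n • b n) = if n = i then c k i else 0 := by
      intro n _
      rw [map_smul, b.ortho]
      by_cases hni : n = i
      · subst hni; simp
      · simp [hni]
    rw [Finset.sum_congr rfl h1, Finset.sum_ite_eq']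
    simp
  have e1 : ∑ k ∈ range N, ∑ i ∈ range I,
        b.coord i ((ContinuousLinearMap.id 𝕜 X - P) (∑ n ∈ range N, c k n • b n)) •
          b (Nat.pair k i) =
      (∑ k ∈ range N, ∑ i ∈ range I, (if i < N then c k i else 0) • b (Nat.pair k i)) -
      ∑ k ∈ range N, ∑ i ∈ range I,
        b.coord i (P (∑ n ∈ range N, c k n • b n)) • b (Nat.pair k i) := by
    rw [← Finset.sum_sub_distrib]
    refine Finset.sum_congr rfl fun k _ => ?_
    rw [← Finset.sum_sub_distrib]
    refine Finset.sum_congr rfl fun i _ => ?_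
    rw [ContinuousLinearMap.sub_apply, ContinuousLinearMap.id_apply, map_sub, hcoord, sub_smul]
  have e2 : ∑ k ∈ range N, ∑ i ∈ range I, (if i < N then c k i else 0) • b (Nat.pair k i) =
      ∑ m ∈ ((range N ×ˢ range I).filter (fun p => p.2 < N)).image
        (fun p : ℕ × ℕ => Nat.pair p.1 p.2), c m.unpair.1 m.unpair.2 • b m := by
    rw [ampc_sum, Finset.sum_filter, Finset.sum_product]
    refine Finset.sum_congr rfl fun k _ => Finset.sum_congr rfl fun i _ => ?_
    by_cases hi : i < N
    · simp [hi]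
    · simp [hi]
  have e3 : ∑ k ∈ range N, ∑ n ∈ range N, c k n • b (Nat.pair k n) =
      ∑ m ∈ (range N ×ˢ range N).image
        (fun p : ℕ × ℕ => Nat.pair p.1 p.2), c m.unpair.1 m.unpair.2 • b m := by
    rw [ampc_sum, Finset.sum_product]
    refine Finset.sum_congr rfl fun k _ => Finset.sum_congr rfl fun i _ => ?_
    simp
  have hsub : ((range N ×ˢ range I).filter (fun p => p.2 < N)).image
        (fun p : ℕ × ℕ => Nat.pair p.1 p.2) ⊆ (range N ×ˢ range N).image
        (fun p : ℕ × ℕ => Nat.pair p.1 p.2) := by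
    apply Finset.image_subset_image
    intro p hp
    rw [Finset.mem_filter, Finset.mem_product] at hp
    rw [Finset.mem_product]
    exact ⟨hp.1.1, Finset.mem_range.2 hp.2⟩
  have h2 := h.2 _ _ hsub id Function.injective_id.injOn (fun m => c m.unpair.1 m.unpair.2)
  rw [e1, add_mul]
  refine (norm_sub_le _ _).trans (add_le_add ?_ (hM N I c))
  rw [e2, e3]
  exact h2

end Pool.Agent.SYP
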