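import Mathlib
import Pool.Agent.SYP.Defs

namespace Pool.Agent.SYP

open Filter Topology Finset

variable {𝕜 : Type*} {X : Type*} [RCLike 𝕜] [NormedAddCommGroup X] [NormedSpace 𝕜 X]

/-- If the identity factors through the idempotent `P`, the range of `P` is `X × V`.
`A' : X → range P`, `x ↦ P (A x)`, `B' : range P → X`, `y ↦ B y`; `B' A' x = B P A x = x`, so
`range P ≃L X × ker B'` (`ContinuousLinearEquiv.equivOfRightInverse` or by hand:
`y ↦ (B' y, y - A' B' y)`). No idempotence is needed. -/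
theorem range_equiv_prod (P A B : X →L[𝕜] X) (h : B ∘L P ∘L A = ContinuousLinearMap.id 𝕜 X) :
    ∃ V : Submodule 𝕜 (LinearMap.range P.toLinearMap),
      Nonempty (LinearMap.range P.toLinearMap ≃L[𝕜] X × V) := by
  set A' : X →L[𝕜] LinearMap.range P.toLinearMap :=
    (P ∘L A).codRestrict (LinearMap.range P.toLinearMap) (fun x => ⟨A x, rfl⟩) with hA'
  set B' : LinearMap.range P.toLinearMap →L[𝕜] X := B ∘L (LinearMap.range P.toLinearMap).subtypeL with hB'
  have hBA : ∀ x, B' (A' x) = x := fun x => congrArg (fun f : X →L[𝕜] X => f x) h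
  exact ⟨_, ⟨ContinuousLinearEquiv.equivOfRightInverse B' A' hBA⟩⟩

end Pool.Agent.SYP
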