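import Mathlib
import Pool.Agent.SYP.Defs
import Pool.Agent.SYP.R_J
import Pool.Agent.SYP.R_ext
namespace Pool.Agent.SYP

open Filter Topology Finset

variable {𝕜 : Type*} {X : Type*} [RCLike 𝕜] [NormedAddCommGroup X] [NormedSpace 𝕜 X]

/-- `X ≃ X × X`: shift operators of `n ↦ 2n` and `n ↦ 2n+1`; `x ↦ (Ra x, Rb x)`, inverse
`(y, z) ↦ Ja y + Jb z`. -/
theorem X_sq [CompleteSpace X] (b : SchauderBasis 𝕜 X) {K : ℝ} (h : UB b K) :
    Nonempty (X ≃L[𝕜] X × X) := by
  obtain ⟨Ja, Ra, hJa, hRa, hRa0⟩ := exists_J b h (fun n => 2 * n) (fun x y hxy => by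
    simpa using hxy)
  obtain ⟨Jb, Rb, hJb, hRb, hRb0⟩ := exists_J b h (fun n => 2 * n + 1) (fun x y hxy => by
    simpa using hxy)
  have e1 : Ra.comp Ja = ContinuousLinearMap.id 𝕜 X := ext_basis b _ _ fun i => by
    simp only [ContinuousLinearMap.comp_apply, ContinuousLinearMap.id_apply, hJa]
    exact hRa i
  have e2 : Rb.comp Jb = ContinuousLinearMap.id 𝕜 X := ext_basis b _ _ fun i => by
    simp only [ContinuousLinearMap.comp_apply, ContinuousLinearMap.id_apply, hJb]
    exact hRb i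
  have e3 : Ra.comp Jb = 0 := ext_basis b _ _ fun i => by
    simp only [ContinuousLinearMap.comp_apply, hJb, zero_apply]
    exact hRa0 _ (by rintro ⟨m, hm⟩; simp only at hm; omega)
  have e4 : Rb.comp Ja = 0 := ext_basis b _ _ fun i => by
    simp only [ContinuousLinearMap.comp_apply, hJa, zero_apply]
    exact hRb0 _ (by rintro ⟨m, hm⟩; simp only at hm; omega)
  have e5 : Ja.comp Ra + Jb.comp Rb = ContinuousLinearMap.id 𝕜 X := ext_basis b _ _ fun i => by
    simp only [add_apply, ContinuousLinearMap.comp_apply,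
      ContinuousLinearMap.id_apply]
    rcases Nat.even_or_odd' i with ⟨m, rfl | rfl⟩
    · rw [hRa m, hRb0 (2 * m) (by rintro ⟨k, hk⟩; simp only at hk; omega), hJa, map_zero, add_zero]
    · rw [hRb m, hRa0 (2 * m + 1) (by rintro ⟨k, hk⟩; simp only at hk; omega), hJb, map_zero,
        zero_add]
  refine ⟨ContinuousLinearEquiv.equivOfInverse (Ra.prod Rb) (Ja.coprod Jb) ?_ ?_⟩
  · intro x
    have := congrArg (fun T : X →L[𝕜] X => T x) e5
    simpa using this
  · rintro ⟨y, z⟩
    have a1 := congrArg (fun T : X →L[𝕜] X => T y) e1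
    have a2 := congrArg (fun T : X →L[𝕜] X => T z) e2
    have a3 := congrArg (fun T : X →L[𝕜] X => T z) e3
    have a4 := congrArg (fun T : X →L[𝕜] X => T y) e4
    simp only [ContinuousLinearMap.comp_apply, ContinuousLinearMap.id_apply,
      zero_apply] at a1 a2 a3 a4
    simp [a1, a2, a3, a4]

end Pool.Agent.SYP
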