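import Mathlib
import Pool.Agent.SYP.Defs

namespace Pool.Agent.SYP

open Filter Topology Finset

variable {𝕜 : Type*} {X : Type*} [RCLike 𝕜] [NormedAddCommGroup X] [NormedSpace 𝕜 X]

/-- `X ≃ range P × range (1 - P)` for an idempotent `P` (`x ↦ (P x, x - P x)`), and
`range (1 - P) = ker P`. -/
theorem range_decomp (P : X →L[𝕜] X) (hP : P ∘L P = P) :
    Nonempty (X ≃L[𝕜] (LinearMap.range P.toLinearMap) ×
      (LinearMap.range (ContinuousLinearMap.id 𝕜 X - P).toLinearMap)) ∧
    LinearMap.range (ContinuousLinearMap.id 𝕜 X - P).toLinearMap =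
      LinearMap.ker P.toLinearMap := by
  have hPP : ∀ x, P (P x) = P x := fun x => by
    have := congrArg (fun f : X →L[𝕜] X => f x) hP
    simpa using this
  have hQ : ∀ x : X, (ContinuousLinearMap.id 𝕜 X - P) x = x - P x := fun x => rfl
  constructor
  · let f : X →L[𝕜] (LinearMap.range P.toLinearMap) := P.codRestrict _ (fun x => ⟨x, rfl⟩)
    let g : X →L[𝕜] (LinearMap.range (ContinuousLinearMap.id 𝕜 X - P).toLinearMap) :=
      (ContinuousLinearMap.id 𝕜 X - P).codRestrict _ (fun x => ⟨x, rfl⟩)
    let F : X →L[𝕜] (LinearMap.range P.toLinearMap) ×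
      (LinearMap.range (ContinuousLinearMap.id 𝕜 X - P).toLinearMap) := f.prod g
    let G : (LinearMap.range P.toLinearMap) ×
      (LinearMap.range (ContinuousLinearMap.id 𝕜 X - P).toLinearMap) →L[𝕜] X :=
      (Submodule.subtypeL _).comp (ContinuousLinearMap.fst 𝕜 _ _) +
        (Submodule.subtypeL _).comp (ContinuousLinearMap.snd 𝕜 _ _)
    refine ⟨ContinuousLinearEquiv.equivOfInverse F G (fun x => ?_) (fun y => ?_)⟩
    · change P x + (x - P x) = x
      abel
    · obtain ⟨⟨u, ⟨u', hu⟩⟩, ⟨v, ⟨v', hv⟩⟩⟩ := y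
      have hu2 : P u = u := by
        rw [← hu]
        exact hPP u'
      have hv2 : P v = 0 := by
        rw [← hv]
        change P (v' - P v') = 0
        rw [map_sub, hPP, sub_self]
      refine Prod.ext (Subtype.ext ?_) (Subtype.ext ?_)
      · change P (u + v) = u
        rw [map_add, hu2, hv2, add_zero]
      · change (u + v) - P (u + v) = v
        rw [map_add, hu2, hv2, add_zero, add_sub_cancel_left]
  · ext x
    constructor
    · rintro ⟨y, rfl⟩
      change P (y - P y) = 0
      rw [map_sub, hPP, sub_self]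
    · intro hx
      have hx' : P x = 0 := hx
      refine ⟨x, ?_⟩
      change x - P x = x
      rw [hx', sub_zero]

end Pool.Agent.SYP
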