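import Mathlib
import Pool.Agent.SYP.Defs

namespace Pool.Agent.SYP

open Filter Topology Finset

variable {𝕜 : Type*} {X : Type*} [RCLike 𝕜] [NormedAddCommGroup X] [NormedSpace 𝕜 X]

/-- the part of the index set where `g` is nonnegative -/
private theorem h3_part (b : SchauderBasis 𝕜 X) {K : ℝ} (h : UB b K) (φ : StrongDual 𝕜 X)
    (s : Finset ℕ) (σ : ℕ → ℕ) (hσ : Set.InjOn σ s) (c : ℕ → 𝕜) (L : 𝕜 → ℝ)
    (hL : ∀ (t : Finset ℕ) (f : ℕ → 𝕜), L (∑ i ∈ t, f i) = ∑ i ∈ t, L (f i)) (hL1 : ∀ z, |L z| ≤ ‖z‖) :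
    ∑ i ∈ s, |L (c i * φ (b (σ i)))| ≤ 2 * K * ‖φ‖ * ‖∑ i ∈ s, c i • b i‖ := by
  classical
  have key : ∀ t ⊆ s, |∑ i ∈ t, L (c i * φ (b (σ i)))| ≤ K * ‖φ‖ * ‖∑ i ∈ s, c i • b i‖ := by
    intro t ht
    have h1 : ∑ i ∈ t, c i * φ (b (σ i)) = φ (∑ i ∈ t, c i • b (σ i)) := by
      rw [map_sum]
      exact Finset.sum_congr rfl fun i _ => by rw [map_smul, smul_eq_mul]
    rw [← hL, h1]
    calc |L (φ (∑ i ∈ t, c i • b (σ i)))| ≤ ‖φ (∑ i ∈ t, c i • b (σ i))‖ := hL1 _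
      _ ≤ ‖φ‖ * ‖∑ i ∈ t, c i • b (σ i)‖ := φ.le_opNorm _
      _ ≤ ‖φ‖ * (K * ‖∑ i ∈ s, c i • b i‖) :=
          mul_le_mul_of_nonneg_left (h.2 s t ht σ (hσ.mono (by exact_mod_cast ht)) c) (norm_nonneg _)
      _ = _ := by ring
  rw [← Finset.sum_filter_add_sum_filter_not s (fun i => 0 ≤ L (c i * φ (b (σ i))))]
  have h1 : ∑ i ∈ s with 0 ≤ L (c i * φ (b (σ i))), |L (c i * φ (b (σ i)))| ≤
      K * ‖φ‖ * ‖∑ i ∈ s, c i • b i‖ := by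
    refine le_trans (le_of_eq ?_) ((le_abs_self _).trans (key _ (Finset.filter_subset (fun i => 0 ≤ L (c i * φ (b (σ i)))) s)))
    exact Finset.sum_congr rfl fun i hi => abs_of_nonneg (Finset.mem_filter.1 hi).2
  have h2 : ∑ i ∈ s with ¬ 0 ≤ L (c i * φ (b (σ i))), |L (c i * φ (b (σ i)))| ≤
      K * ‖φ‖ * ‖∑ i ∈ s, c i • b i‖ := by
    refine le_trans (le_of_eq ?_) ((neg_le_abs _).trans (key _ (Finset.filter_subset (fun i => ¬ 0 ≤ L (c i * φ (b (σ i)))) s)))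
    rw [← Finset.sum_neg_distrib]
    exact Finset.sum_congr rfl fun i hi => abs_of_neg (not_le.1 (Finset.mem_filter.1 hi).2)
  linarith

/-- `∑ |c_i φ(b_{σ i})| ≤ 4 K ‖φ‖ ‖∑ c_i b_i‖`. For `t = {i ∈ s : 0 ≤ Re (c_i φ(b_{σ i}))}`:
`∑_t Re (c_i φ(b_{σ i})) = Re φ(∑_t c_i b_{σ i}) ≤ ‖φ‖ K ‖∑_s c_i b_i‖` by `UB`; same for the negative
part and for the imaginary part; `‖z‖ ≤ |Re z| + |Im z|`. -/
theorem sum_norm_le (b : SchauderBasis 𝕜 X) {K : ℝ} (h : UB b K) (φ : StrongDual 𝕜 X)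
    (s : Finset ℕ) (σ : ℕ → ℕ) (hσ : Set.InjOn σ s) (c : ℕ → 𝕜) :
    ∑ i ∈ s, ‖c i * φ (b (σ i))‖ ≤ 4 * K * ‖φ‖ * ‖∑ i ∈ s, c i • b i‖ := by
  have h1 := h3_part b h φ s σ hσ c RCLike.re (fun t f => map_sum _ _ _) RCLike.abs_re_le_norm
  have h2 := h3_part b h φ s σ hσ c RCLike.im (fun t f => map_sum _ _ _) RCLike.abs_im_le_norm
  have h3 : ∑ i ∈ s, ‖c i * φ (b (σ i))‖ ≤ ∑ i ∈ s, |RCLike.re (c i * φ (b (σ i)))| +
      ∑ i ∈ s, |RCLike.im (c i * φ (b (σ i)))| := by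
    rw [← Finset.sum_add_distrib]
    refine Finset.sum_le_sum fun i _ => ?_
    have h4 := RCLike.norm_sq_eq_def (z := c i * φ (b (σ i)))
    have h5 := abs_nonneg (RCLike.re (c i * φ (b (σ i))))
    have h6 := abs_nonneg (RCLike.im (c i * φ (b (σ i))))
    refine abs_le_of_sq_le_sq' ?_ (by positivity) |>.2
    rw [h4, add_sq, sq_abs, sq_abs]
    nlinarith
  linarith

end Pool.Agent.SYP
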