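import Mathlib
import Pool.Agent.SYP.Defs
import Pool.Agent.SYP.R_h3
namespace Pool.Agent.SYP

open Filter Topology Finset

variable {𝕜 : Type*} {X : Type*} [RCLike 𝕜] [NormedAddCommGroup X] [NormedSpace 𝕜 X]

/-- Multipliers: choose a norming functional `φ` of the left side (`exists_dual_vector''`),
`|φ(LHS)| ≤ ∑ |λ_i| |c_i φ(b_i)| ≤ L ∑ |c_i φ(b_i)|`, `sum_norm_le` with `σ = id`. -/
theorem mult_le (b : SchauderBasis 𝕜 X) {K : ℝ} (h : UB b K) (L : ℝ) (lam : ℕ → 𝕜)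
    (hl : ∀ i, ‖lam i‖ ≤ L) (s : Finset ℕ) (c : ℕ → 𝕜) :
    ‖∑ i ∈ s, (lam i * c i) • b i‖ ≤ 4 * K * L * ‖∑ i ∈ s, c i • b i‖ := by
  obtain ⟨φ, hφ1, hφ2⟩ := exists_dual_vector'' 𝕜 (∑ i ∈ s, (lam i * c i) • b i)
  have hL : 0 ≤ L := (norm_nonneg _).trans (hl 0)
  have hK : 0 ≤ K := zero_le_one.trans h.1
  have hs := sum_norm_le b h φ s id (fun _ _ _ _ h => h) c
  simp only [id] at hs
  have h1 : ‖∑ i ∈ s, (lam i * c i) • b i‖ = ‖φ (∑ i ∈ s, (lam i * c i) • b i)‖ := by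
    rw [hφ2]; simp
  calc ‖∑ i ∈ s, (lam i * c i) • b i‖ = ‖∑ i ∈ s, lam i * (c i * φ (b i))‖ := by
        rw [h1, map_sum]
        congr 1
        refine Finset.sum_congr rfl fun i _ => ?_
        rw [map_smul, smul_eq_mul, mul_assoc]
    _ ≤ ∑ i ∈ s, ‖lam i * (c i * φ (b i))‖ := norm_sum_le _ _
    _ ≤ ∑ i ∈ s, L * ‖c i * φ (b i)‖ := Finset.sum_le_sum fun i _ => by
        rw [norm_mul (lam i)]
        exact mul_le_mul_of_nonneg_right (hl i) (norm_nonneg _)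
    _ = L * ∑ i ∈ s, ‖c i * φ (b i)‖ := by rw [Finset.mul_sum]
    _ ≤ L * (4 * K * ‖φ‖ * ‖∑ i ∈ s, c i • b i‖) := mul_le_mul_of_nonneg_left hs hL
    _ ≤ L * (4 * K * 1 * ‖∑ i ∈ s, c i • b i‖) := by
        refine mul_le_mul_of_nonneg_left ?_ hL
        refine mul_le_mul_of_nonneg_right ?_ (norm_nonneg _)
        exact mul_le_mul_of_nonneg_left hφ1 (by positivity)
    _ = _ := by ring

end Pool.Agent.SYP
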