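import Mathlib
import Pool.Agent.SYP.Defs
import Pool.Agent.SYP.R_cols
import Pool.Agent.SYP.R_ext
import Pool.Agent.SYP.R_mult
import Pool.Agent.SYP.R_bb
namespace Pool.Agent.SYP

open Filter Topology Finset

variable {𝕜 : Type*} {X : Type*} [RCLike 𝕜] [NormedAddCommGroup X] [NormedSpace 𝕜 X]

/-- A matrix near an invertible diagonal is left invertible. `B` from `exists_basis_bound`.
`d_k = coord_k (U b_k)`, `δ ≤ |d_k| ≤ B² ‖U‖`. By `exists_ofCols` and `mult_le` there are `D, D'` with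
`D b_k = d_k b_k`, `D' b_k = d_k⁻¹ b_k`, `‖D' x‖ ≤ (4K/δ) ‖x‖`, `D' D = 1` (`ext_basis`). `E = U - D`:
`coord_k (E b_l)` is `0` for `k = l` and `≤ η 2^{-(k+l)}` otherwise, so
`|coord_k (E x)| ≤ ∑_l |coord_l x| |coord_k (E b_l)| ≤ B ‖x‖ η 2^{1-k}` and
`‖E x‖ ≤ ∑_k |coord_k (E x)| B ≤ 4 η B² ‖x‖` (`b.expansion`, limits of partial sums). For
`η = δ / (32 K B²)` (say) `‖D' E‖ ≤ 1/2 < 1`, so `D' U = 1 + D' E` is a unit
(`Units.oneSub` / `isUnit_one_sub_of_norm_lt_one`), `V = (D' U)⁻¹ D'`. -/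
theorem left_inverse_of_near_diag [CompleteSpace X] (b : SchauderBasis 𝕜 X) {K : ℝ} (h : UB b K)
    (δ : ℝ) (hδ : 0 < δ) : ∃ η : ℝ, 0 < η ∧ ∀ U : X →L[𝕜] X,
      (∀ k, δ ≤ ‖b.coord k (U (b k))‖) →
      (∀ k l, k ≠ l → ‖b.coord k (U (b l))‖ ≤ η * (1 / 2) ^ (k + l)) →
      ∃ V : X →L[𝕜] X, V ∘L U = ContinuousLinearMap.id 𝕜 X := by
  obtain ⟨⟨B, hB, hbB, hcB⟩, -⟩ := exists_basis_bound b h
  have hK : 1 ≤ K := h.1
  have hK0 : 0 < K := by linarith
  refine ⟨δ / (32 * K * B ^ 2), by positivity, ?_⟩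
  intro U hdiag hoff
  have hd0 : ∀ k, b.coord k (U (b k)) ≠ 0 := by
    intro k hk
    have := hdiag k
    rw [hk, norm_zero] at this
    linarith
  have hdU : ∀ k, ‖b.coord k (U (b k))‖ ≤ B * (‖U‖ * B) := by
    intro k
    calc ‖b.coord k (U (b k))‖ ≤ B * ‖U (b k)‖ := hcB k _
      _ ≤ B * (‖U‖ * ‖b k‖) := by gcongr; exact U.le_opNorm _
      _ ≤ B * (‖U‖ * B) := by gcongr; exact hbB k
  obtain ⟨D, hD, -⟩ := exists_ofCols b (fun i => b.coord i (U (b i)) • b i)
    (4 * K * (B * (‖U‖ * B))) (by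
      intro N c
      have := mult_le b h (B * (‖U‖ * B)) (fun i => b.coord i (U (b i))) hdU (range N) c
      refine le_trans (le_of_eq ?_) this
      congr 1
      refine Finset.sum_congr rfl fun i _ => ?_
      rw [smul_smul, mul_comm])
  obtain ⟨D', hD', hD'n⟩ := exists_ofCols b (fun i => (b.coord i (U (b i)))⁻¹ • b i)
    (4 * K * δ⁻¹) (by
      intro N c
      have := mult_le b h δ⁻¹ (fun i => (b.coord i (U (b i)))⁻¹) (fun i => by
        rw [norm_inv]
        exact inv_anti₀ hδ (hdiag i)) (range N) c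
      refine le_trans (le_of_eq ?_) this
      congr 1
      refine Finset.sum_congr rfl fun i _ => ?_
      rw [smul_smul, mul_comm])
  have hDD : D' ∘L D = ContinuousLinearMap.id 𝕜 X := by
    refine ext_basis b _ _ fun i => ?_
    rw [ContinuousLinearMap.comp_apply, hD, map_smul, hD', smul_smul, mul_inv_cancel₀ (hd0 i),
      one_smul]
    rfl
  set η : ℝ := δ / (32 * K * B ^ 2) with hη
  have hη0 : 0 < η := by rw [hη]; positivity
  -- the off-diagonal part
  have hE1 : ∀ k l, ‖b.coord k ((U - D) (b l))‖ ≤ η * (1 / 2) ^ (k + l) := by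
    intro k l
    by_cases hkl : k = l
    · subst hkl
      have : b.coord k ((U - D) (b k)) = 0 := by
        rw [ContinuousLinearMap.sub_apply, map_sub, hD, map_smul, b.ortho]
        simp
      rw [this, norm_zero]
      positivity
    · have : b.coord k ((U - D) (b l)) = b.coord k (U (b l)) := by
        rw [ContinuousLinearMap.sub_apply, map_sub, hD, map_smul, b.ortho]
        simp [hkl, Ne.symm hkl]
      rw [this]
      exact hoff k l hkl
  have hgeo : ∀ M : ℕ, ∑ l ∈ range M, (1 / 2 : ℝ) ^ l ≤ 2 := fun M => by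
    have := sum_geometric_two_le M
    simpa using this
  have hE2 : ∀ (x : X) (k : ℕ), ‖b.coord k ((U - D) x)‖ ≤ 2 * B * η * (1 / 2) ^ k * ‖x‖ := by
    intro x k
    have ht : Tendsto (fun M => ‖b.coord k ((U - D) (b.proj M x))‖) atTop
        (𝓝 ‖b.coord k ((U - D) x)‖) := by
      have h1 := b.tendsto_proj x
      exact ((((b.coord k).continuous.comp (U - D).continuous).tendsto x).comp h1).norm
    refine le_of_tendsto ht (Filter.Eventually.of_forall fun M => ?_)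
    rw [b.proj_apply, map_sum, map_sum]
    refine (norm_sum_le _ _).trans ?_
    calc ∑ l ∈ range M, ‖b.coord k ((U - D) (b.coord l x • b l))‖
        ≤ ∑ l ∈ range M, (B * ‖x‖) * (η * (1 / 2) ^ (k + l)) := by
          refine Finset.sum_le_sum fun l _ => ?_
          rw [map_smul, map_smul, norm_smul]
          exact mul_le_mul (hcB l x) (hE1 k l) (norm_nonneg _) (by positivity)
      _ = (B * ‖x‖ * η * (1 / 2) ^ k) * ∑ l ∈ range M, (1 / 2 : ℝ) ^ l := by
          rw [Finset.mul_sum]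
          refine Finset.sum_congr rfl fun l _ => ?_
          rw [pow_add]; ring
      _ ≤ (B * ‖x‖ * η * (1 / 2) ^ k) * 2 := by
          refine mul_le_mul_of_nonneg_left (hgeo M) (by positivity)
      _ = 2 * B * η * (1 / 2) ^ k * ‖x‖ := by ring
  have hE3 : ∀ x : X, ‖(U - D) x‖ ≤ 4 * η * B ^ 2 * ‖x‖ := by
    intro x
    have ht : Tendsto (fun N => ‖b.proj N ((U - D) x)‖) atTop (𝓝 ‖(U - D) x‖) :=
      (b.tendsto_proj ((U - D) x)).norm
    refine le_of_tendsto ht (Filter.Eventually.of_forall fun N => ?_)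
    rw [b.proj_apply]
    refine (norm_sum_le _ _).trans ?_
    calc ∑ k ∈ range N, ‖b.coord k ((U - D) x) • b k‖
        ≤ ∑ k ∈ range N, (2 * B * η * (1 / 2) ^ k * ‖x‖) * B := by
          refine Finset.sum_le_sum fun k _ => ?_
          rw [norm_smul]
          exact mul_le_mul (hE2 x k) (hbB k) (norm_nonneg _) (by positivity)
      _ = (2 * B ^ 2 * η * ‖x‖) * ∑ k ∈ range N, (1 / 2 : ℝ) ^ k := by
          rw [Finset.mul_sum]
          refine Finset.sum_congr rfl fun k _ => ?_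
          ring
      _ ≤ (2 * B ^ 2 * η * ‖x‖) * 2 := mul_le_mul_of_nonneg_left (hgeo N) (by positivity)
      _ = 4 * η * B ^ 2 * ‖x‖ := by ring
  have hsmall : ‖-(D' * (U - D))‖ < 1 := by
    rw [norm_neg]
    refine lt_of_le_of_lt (ContinuousLinearMap.opNorm_le_bound _ (by norm_num : (0:ℝ) ≤ 1 / 2)
      fun x => ?_) (by norm_num : (1 / 2 : ℝ) < 1)
    calc ‖(D' * (U - D)) x‖ = ‖D' ((U - D) x)‖ := rfl
      _ ≤ 4 * K * δ⁻¹ * ‖(U - D) x‖ := hD'n _
      _ ≤ 4 * K * δ⁻¹ * (4 * η * B ^ 2 * ‖x‖) := by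
          refine mul_le_mul_of_nonneg_left (hE3 x) (by positivity)
      _ = 1 / 2 * ‖x‖ := by
          rw [hη]
          field_simp
          ring
  have hu := isUnit_one_sub_of_norm_lt_one hsmall
  obtain ⟨u, hu⟩ := hu
  have hDU : (u : X →L[𝕜] X) = D' * U := by
    rw [hu, sub_neg_eq_add, mul_sub]
    have : D' * D = (1 : X →L[𝕜] X) := hDD
    rw [this]
    abel
  refine ⟨((u⁻¹ : (X →L[𝕜] X)ˣ) : X →L[𝕜] X) * D', ?_⟩
  show ((u⁻¹ : (X →L[𝕜] X)ˣ) : X →L[𝕜] X) * D' * U = 1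
  rw [mul_assoc, ← hDU, Units.inv_mul]

end Pool.Agent.SYP
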