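import Mathlib
import Pool.Agent.SYP.Defs

namespace Pool.Agent.SYP

open Filter Topology Finset

variable {𝕜 : Type*} {X : Type*} [RCLike 𝕜] [NormedAddCommGroup X] [NormedSpace 𝕜 X]

/-- Selection of a sparse sequence `α_0 < β_0 < α_1 < β_1 < ...`. With
`e_m = η 4^{-m} / 8` choose inductively (strong recursion on finite lists, or
`exists_seq_of_forall_finset_exists` / recursion on `Σ` of previous choices)
`α_m` beyond all previous ones with `1/2 ≤ ‖p α_m α_m - r α_m‖`, `‖p α_k α_m - r α_k‖ < e_m` for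
`k < m` (an event of the ultrafilter) and `‖p α_m α_l‖, ‖p α_m β_l‖ < e_m` for `l < m` (cofinite,
`hcol`), and then `β_m > α_m` with `‖p α_k β_m - r α_k‖ < e_m` for `k < m` and
`‖p α_m β_m - r α_m‖ < 1/4`. Then for `k < l`: `‖p α_k α_l - p α_k β_l‖ < 2 e_l`; for `l < k`:
`< 2 e_k`; and `2 e_{max k l} ≤ η 2^{-(k+l)}`. -/
theorem exists_seq (p : ℕ → ℕ → 𝕜) (u : Ultrafilter ℕ) (hu : (u : Filter ℕ) ≤ atTop) (r : ℕ → 𝕜)
    (hr : ∀ i, Tendsto (fun m => p i m) (u : Filter ℕ) (𝓝 (r i)))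
    (hcol : ∀ j, Tendsto (fun i => p i j) atTop (𝓝 0))
    (hd : ∀ᶠ a in (u : Filter ℕ), 1 / 2 ≤ ‖p a a - r a‖) (η : ℝ) (hη : 0 < η) :
    ∃ α β : ℕ → ℕ, Function.Injective α ∧ Function.Injective β ∧ (∀ k l, α k ≠ β l) ∧
      (∀ k, 1 / 4 ≤ ‖p (α k) (α k) - p (α k) (β k)‖) ∧
      ∀ k l, k ≠ l → ‖p (α k) (α l) - p (α k) (β l)‖ ≤ η * (1 / 2) ^ (k + l) := by
  classical
  have hcast : ∀ {q : ℕ → Prop}, (∀ᶠ m in atTop, q m) → ∀ᶠ m in (u : Filter ℕ), q m :=
    fun {q} h => hu h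
  set e : ℕ → ℝ := fun n => η / 8 * (1 / 4) ^ n with he
  have hepos : ∀ n, 0 < e n := fun n => by positivity
  let P : ℕ × ℕ × ℕ → Prop := fun x =>
    x.2.1 < x.2.2 ∧ 1 / 2 ≤ ‖p x.2.1 x.2.1 - r x.2.1‖ ∧ ‖p x.2.1 x.2.2 - r x.2.1‖ < 1 / 4
  let Rr : ℕ × ℕ × ℕ → ℕ × ℕ × ℕ → Prop := fun x y =>
    x.1 < y.1 ∧ x.2.2 < y.2.1 ∧ ‖p x.2.1 y.2.1 - r x.2.1‖ < e y.1 ∧
      ‖p x.2.1 y.2.2 - r x.2.1‖ < e y.1 ∧ ‖p y.2.1 x.2.1‖ < e y.1 ∧ ‖p y.2.1 x.2.2‖ < e y.1
  have hkey : ∀ s : Finset (ℕ × ℕ × ℕ), (∀ x ∈ s, P x) → ∃ y, P y ∧ ∀ x ∈ s, Rr x y := by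
    intro s _
    set N := s.sup (fun x => x.1) + 1 with hN
    have hN' : ∀ x ∈ s, x.1 < N := by
      intro x hx
      have := Finset.le_sup (f := fun x : ℕ × ℕ × ℕ => x.1) hx
      omega
    have h1 : ∀ x ∈ s, ∀ᶠ m in (u : Filter ℕ), ‖p x.2.1 m - r x.2.1‖ < e N := by
      intro x _
      have := (hr x.2.1)
      have h := (Metric.tendsto_nhds.1 this) (e N) (hepos N)
      filter_upwards [h] with m hm
      rwa [dist_eq_norm] at hm
    have h2 : ∀ x ∈ s, ∀ᶠ m in (u : Filter ℕ), ‖p m x.2.1‖ < e N := by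
      intro x _
      apply hcast
      have h := (Metric.tendsto_nhds.1 (hcol x.2.1)) (e N) (hepos N)
      filter_upwards [h] with m hm
      rwa [dist_zero_right] at hm
    have h3 : ∀ x ∈ s, ∀ᶠ m in (u : Filter ℕ), ‖p m x.2.2‖ < e N := by
      intro x _
      apply hcast
      have h := (Metric.tendsto_nhds.1 (hcol x.2.2)) (e N) (hepos N)
      filter_upwards [h] with m hm
      rwa [dist_zero_right] at hm
    have h4 : ∀ x ∈ s, ∀ᶠ m in (u : Filter ℕ), x.2.2 < m := by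
      intro x _
      exact hcast (eventually_gt_atTop x.2.2)
    have H1 : ∀ᶠ m in (u : Filter ℕ), ∀ x ∈ s, ‖p x.2.1 m - r x.2.1‖ < e N :=
      (Filter.eventually_all_finset s).2 h1
    have H2 : ∀ᶠ m in (u : Filter ℕ), ∀ x ∈ s, ‖p m x.2.1‖ < e N :=
      (Filter.eventually_all_finset s).2 h2
    have H3 : ∀ᶠ m in (u : Filter ℕ), ∀ x ∈ s, ‖p m x.2.2‖ < e N :=
      (Filter.eventually_all_finset s).2 h3
    have H4 : ∀ᶠ m in (u : Filter ℕ), ∀ x ∈ s, x.2.2 < m :=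
      (Filter.eventually_all_finset s).2 h4
    obtain ⟨a, ha1, ha2, ha3, ha4, ha5⟩ := (H1.and (H2.and (H3.and (H4.and hd)))).exists
    have h5 : ∀ᶠ m in (u : Filter ℕ), ‖p a m - r a‖ < 1 / 4 := by
      have h := (Metric.tendsto_nhds.1 (hr a)) (1 / 4) (by norm_num)
      filter_upwards [h] with m hm
      rwa [dist_eq_norm] at hm
    have h6 : ∀ᶠ m in (u : Filter ℕ), a < m := hcast (eventually_gt_atTop a)
    obtain ⟨b, hb1, hb2, hb3⟩ := (H1.and (h5.and h6)).exists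
    refine ⟨(N, a, b), ⟨hb3, ha5, hb2⟩, ?_⟩
    intro x hx
    exact ⟨hN' x hx, ha4 x hx, ha1 x hx, hb1 x hx, ha2 x hx, ha3 x hx⟩
  obtain ⟨f, hf1, hf2⟩ := exists_seq_of_forall_finset_exists P Rr hkey
  have hn : ∀ k, k ≤ (f k).1 := by
    intro k
    induction k with
    | zero => exact Nat.zero_le _
    | succ k ih =>
      have := (hf2 k (k + 1) (Nat.lt_succ_self k)).1
      omega
  have hab : ∀ k, (f k).2.1 < (f k).2.2 := fun k => (hf1 k).1
  have hba : ∀ k l, k < l → (f k).2.2 < (f l).2.1 := fun k l h => (hf2 k l h).2.1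
  have he' : ∀ k l, k ≤ l → 2 * e (f l).1 ≤ η * (1 / 2) ^ (k + l) := by
    intro k l hkl
    have h1 : ((1 : ℝ) / 4) ^ (f l).1 ≤ (1 / 4) ^ l :=
      pow_le_pow_of_le_one (by norm_num) (by norm_num) (hn l)
    have h2 : ((1 : ℝ) / 4) ^ l = (1 / 2) ^ (l + l) := by
      rw [pow_add, ← mul_pow]; norm_num
    have h3 : ((1 : ℝ) / 2) ^ (l + l) ≤ (1 / 2) ^ (k + l) :=
      pow_le_pow_of_le_one (by norm_num) (by norm_num) (by omega)
    have h4 : (0 : ℝ) ≤ (1 / 2) ^ (k + l) := by positivity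
    have h5 : ((1 : ℝ) / 4) ^ (f l).1 ≤ (1 / 2) ^ (k + l) := by
      rw [h2] at h1; exact h1.trans h3
    simp only [he]
    nlinarith [mul_le_mul_of_nonneg_left h5 hη.le]
  refine ⟨fun k => (f k).2.1, fun k => (f k).2.2, ?_, ?_, ?_, ?_, ?_⟩
  · intro k l h
    simp only at h
    rcases lt_trichotomy k l with hkl | hkl | hkl
    · have := hba k l hkl
      have := hab k
      omega
    · exact hkl
    · have := hba l k hkl
      have := hab l
      omega
  · intro k l h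
    simp only at h
    rcases lt_trichotomy k l with hkl | hkl | hkl
    · have := hba k l hkl
      have := hab l
      omega
    · exact hkl
    · have := hba l k hkl
      have := hab k
      omega
  · intro k l h
    simp only at h
    rcases lt_trichotomy k l with hkl | hkl | hkl
    · have := hba k l hkl
      have := hab k
      have := hab l
      omega
    · subst hkl
      have := hab k
      omega
    · have := hba l k hkl
      omega
  · intro k
    obtain ⟨_, h2, h3⟩ := hf1 k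
    simp only
    have h4 : p (f k).2.1 (f k).2.1 - r (f k).2.1 =
        (p (f k).2.1 (f k).2.1 - p (f k).2.1 (f k).2.2) +
          (p (f k).2.1 (f k).2.2 - r (f k).2.1) := by ring
    rw [h4] at h2
    have h5 := norm_add_le (p (f k).2.1 (f k).2.1 - p (f k).2.1 (f k).2.2)
      (p (f k).2.1 (f k).2.2 - r (f k).2.1)
    linarith
  · intro k l hkl
    simp only
    rcases lt_or_gt_of_ne hkl with h | h
    · obtain ⟨_, _, h3, h4, _, _⟩ := hf2 k l h
      have h5 : p (f k).2.1 (f l).2.1 - p (f k).2.1 (f l).2.2 =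
        (p (f k).2.1 (f l).2.1 - r (f k).2.1) - (p (f k).2.1 (f l).2.2 - r (f k).2.1) := by ring
      rw [h5]
      have h6 := norm_sub_le (p (f k).2.1 (f l).2.1 - r (f k).2.1)
        (p (f k).2.1 (f l).2.2 - r (f k).2.1)
      have h7 := he' k l h.le
      linarith
    · obtain ⟨_, _, _, _, h3, h4⟩ := hf2 l k h
      have h6 := norm_sub_le (p (f k).2.1 (f l).2.1) (p (f k).2.1 (f l).2.2)
      have h7 := he' l k h.le
      rw [add_comm l k] at h7
      linarith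

end Pool.Agent.SYP
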