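import Mathlib
import Pool.Agent.SYP.Defs
import Pool.Agent.SYP.R_near
import Pool.Agent.SYP.R_sel
import Pool.Agent.SYP.R_J
import Pool.Agent.SYP.R_bb
namespace Pool.Agent.SYP

open Filter Topology Finset

variable {𝕜 : Type*} {X : Type*} [RCLike 𝕜] [NormedAddCommGroup X] [NormedSpace 𝕜 X]

/-- One half of the Casazza-Lin argument. `p i j = coord_i (P b_j)`; `hcol` is
`exists_basis_bound`. Take `δ = 1/4`, `η` from `left_inverse_of_near_diag`, `α, β` from `exists_seq`,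
`Ja, Jb, Ra` from `exists_J` (for `α, β, α`), `A = Ja - Jb`, `U = Ra P A`: its matrix is
`coord_k (U b_l) = coord_{α k} (P b_{α l}) - coord_{α k} (P b_{β l})` (`coord_k (Ra y) = coord_{α k} y`
for all `y`, by `ext_basis`). So `V U = 1` and `B = V Ra`. -/
theorem factor_of_limit [CompleteSpace X] (b : SchauderBasis 𝕜 X) {K : ℝ} (h : UB b K)
    (P : X →L[𝕜] X) (u : Ultrafilter ℕ) (hu : (u : Filter ℕ) ≤ atTop) (r : ℕ → 𝕜)
    (hr : ∀ i, Tendsto (fun m => b.coord i (P (b m))) (u : Filter ℕ) (𝓝 (r i)))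
    (hd : ∀ᶠ a in (u : Filter ℕ), 1 / 2 ≤ ‖b.coord a (P (b a)) - r a‖) :
    ∃ A B : X →L[𝕜] X, B ∘L P ∘L A = ContinuousLinearMap.id 𝕜 X := by
  obtain ⟨-, hcoord0⟩ := exists_basis_bound b h
  obtain ⟨η, hη, hnear⟩ := left_inverse_of_near_diag b h (1 / 4) (by norm_num)
  obtain ⟨α, β, hα, hβ, -, hdiag, hoff⟩ := exists_seq (fun i j => b.coord i (P (b j))) u hu r hr
    (fun j => hcoord0 (P (b j))) hd η hη
  obtain ⟨Ja, Ra, hJa, hRa, hRa0⟩ := exists_J b h α hα
  obtain ⟨Jb, Rb, hJb, -, -⟩ := exists_J b h β hβ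
  have ho : ∀ i j : ℕ, b.coord i (b j) = if i = j then (1 : 𝕜) else 0 := by
    intro i j
    rw [b.ortho]
    simp [Pi.single_apply]
  have key : ∀ (k : ℕ) (y : X), b.coord k (Ra y) = b.coord (α k) y := by
    intro k y
    have h1 : (b.coord k) ∘L Ra = b.coord (α k) := by
      apply ext_basis b
      intro i
      rw [ContinuousLinearMap.comp_apply]
      by_cases hi : i ∈ Set.range α
      · obtain ⟨m, rfl⟩ := hi
        rw [hRa, ho, ho]
        simp only [hα.eq_iff]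
      · rw [hRa0 i hi, map_zero, ho, if_neg]
        intro h'
        exact hi ⟨k, h'⟩
    have h2 := congrArg (fun T : StrongDual 𝕜 X => T y) h1
    simpa using h2
  have hU : ∀ k l, b.coord k ((Ra ∘L P ∘L (Ja - Jb)) (b l)) =
      b.coord (α k) (P (b (α l))) - b.coord (α k) (P (b (β l))) := by
    intro k l
    rw [ContinuousLinearMap.comp_apply, key, ContinuousLinearMap.comp_apply,
      sub_apply, hJa, hJb, map_sub, map_sub]
  obtain ⟨V, hV⟩ := hnear (Ra ∘L P ∘L (Ja - Jb))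
    (fun k => by rw [hU]; exact hdiag k) (fun k l hkl => by rw [hU]; exact hoff k l hkl)
  exact ⟨Ja - Jb, V ∘L Ra, by rw [← hV]; rfl⟩

end Pool.Agent.SYP
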