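import Mathlib
import Pool.Agent.SYP.Defs

namespace Pool.Agent.SYP

open Filter Topology Finset

variable {𝕜 : Type*} {X : Type*} [RCLike 𝕜] [NormedAddCommGroup X] [NormedSpace 𝕜 X]

/-- Ultrafilter limits of bounded sequences of scalars (`𝕜` is proper: closed balls are compact;
`Ultrafilter.of atTop`, `IsCompact.ultrafilter_le_nhds`). -/
theorem exists_ultra (p : ℕ → ℕ → 𝕜) (B : ℕ → ℝ) (hp : ∀ i m, ‖p i m‖ ≤ B i) :
    ∃ (u : Ultrafilter ℕ) (r : ℕ → 𝕜), (u : Filter ℕ) ≤ atTop ∧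
      ∀ i, Tendsto (fun m => p i m) (u : Filter ℕ) (𝓝 (r i)) := by
  have h : ∀ i, ∃ r : 𝕜, Tendsto (fun m => p i m) (Ultrafilter.of (atTop : Filter ℕ) : Filter ℕ)
      (𝓝 r) := by
    intro i
    have hc : IsCompact (Metric.closedBall (0 : 𝕜) (B i)) := isCompact_closedBall _ _
    obtain ⟨r, -, hr⟩ := hc.ultrafilter_le_nhds
      ((Ultrafilter.of (atTop : Filter ℕ)).map (fun m => p i m)) (by
        rw [le_principal_iff, Ultrafilter.mem_coe, Ultrafilter.mem_map]
        refine Filter.univ_mem' fun m => ?_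
        simpa using hp i m)
    exact ⟨r, hr⟩
  choose r hr using h
  exact ⟨Ultrafilter.of atTop, r, Ultrafilter.of_le _, hr⟩

end Pool.Agent.SYP
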