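import Mathlib
import Pool.Agent.SYP.Defs
import Pool.Agent.SYP.R_fac1
import Pool.Agent.SYP.R_ultra
import Pool.Agent.SYP.R_bb
namespace Pool.Agent.SYP

open Filter Topology Finset

variable {𝕜 : Type*} {X : Type*} [RCLike 𝕜] [NormedAddCommGroup X] [NormedSpace 𝕜 X]

/-- Casazza-Lin: the identity of `X` factors through `P` or through `1 - P`. `exists_ultra` for
`p i m = coord_i (P b_m)` gives `u, r`. For `Q = 1 - P`: `coord_i (Q b_m) = δ_{im} - p i m → - r_i`
(`u ≤ atTop`). As `(p a a - r a) + (coord_a (Q b_a) + r a) = 1`, for each `a` one of the two numbers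
has norm `≥ 1/2`; an ultrafilter contains one of the two sets (`Ultrafilter.eventually_or`); apply
`factor_of_limit` to `P, r` or to `1 - P, - r`. -/
theorem factor_or [CompleteSpace X] (b : SchauderBasis 𝕜 X) {K : ℝ} (h : UB b K)
    (P : X →L[𝕜] X) :
    (∃ A B : X →L[𝕜] X, B ∘L P ∘L A = ContinuousLinearMap.id 𝕜 X) ∨
    (∃ A B : X →L[𝕜] X, B ∘L (ContinuousLinearMap.id 𝕜 X - P) ∘L A =
      ContinuousLinearMap.id 𝕜 X) := by
  obtain ⟨⟨B, hB, hbB, hcol⟩, -⟩ := exists_basis_bound b h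
  obtain ⟨u, r, hu, hr⟩ := exists_ultra (fun i m => b.coord i (P (b m))) (fun _ => B * (‖P‖ * B)) (fun i m =>
    (hcol i _).trans (mul_le_mul_of_nonneg_left ((P.le_opNorm _).trans
      (mul_le_mul_of_nonneg_left (hbB m) (norm_nonneg _))) hB.le))
  obtain ⟨Q, hQ⟩ : ∃ Q : X →L[𝕜] X, Q = ContinuousLinearMap.id 𝕜 X - P := ⟨_, rfl⟩
  have hQv : ∀ i m, b.coord i (Q (b m)) = b.coord i (b m) - b.coord i (P (b m)) := by
    intro i m
    rw [hQ]
    simp
  have hrQ : ∀ i, Tendsto (fun m => b.coord i (Q (b m))) (u : Filter ℕ) (𝓝 (-(r i))) := by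
    intro i
    have h1 : Tendsto (fun m => (0 : 𝕜) - b.coord i (P (b m))) (u : Filter ℕ) (𝓝 (0 - r i)) :=
      tendsto_const_nhds.sub (hr i)
    rw [zero_sub] at h1
    refine h1.congr' ?_
    have h2 : ∀ᶠ m in (u : Filter ℕ), i < m := hu (eventually_gt_atTop i)
    filter_upwards [h2] with m hm
    have h3 : b.coord i (b m) = 0 := by
      rw [b.ortho]
      simp [hm.ne]
    rw [hQv, h3]
  have hor : ∀ a, 1 / 2 ≤ ‖b.coord a (P (b a)) - r a‖ ∨ 1 / 2 ≤ ‖b.coord a (Q (b a)) - (-(r a))‖ := by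
    intro a
    by_contra hcon
    push Not at hcon
    have h1 : (b.coord a (P (b a)) - r a) + (b.coord a (Q (b a)) - (-(r a))) = 1 := by
      have h3 : b.coord a (b a) = 1 := by
        rw [b.ortho]
        simp
      rw [hQv, h3]
      ring
    have h2 := norm_add_le (b.coord a (P (b a)) - r a) (b.coord a (Q (b a)) - (-(r a)))
    rw [h1, norm_one] at h2
    linarith [hcon.1, hcon.2]
  rcases Ultrafilter.eventually_or.1 (Eventually.of_forall hor : ∀ᶠ a in (u : Filter ℕ),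
    1 / 2 ≤ ‖b.coord a (P (b a)) - r a‖ ∨ 1 / 2 ≤ ‖b.coord a (Q (b a)) - (-(r a))‖) with h1 | h1
  · exact Or.inl (factor_of_limit b h P u hu r hr h1)
  · right
    rw [← hQ]
    exact factor_of_limit b h Q u hu (fun i => -(r i)) hrQ h1

end Pool.Agent.SYP
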