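import Mathlib
import Pool.Agent.SYP.Defs

namespace Pool.Agent.SYP

open Filter Topology Finset

variable {𝕜 : Type*} {X : Type*} [RCLike 𝕜] [NormedAddCommGroup X] [NormedSpace 𝕜 X]

/-- Pelczynski: `Y ≃ X × V ≃ (X × Y) × V ≃ (X × (X × V)) × V`.. more precisely
`X ≃ X × Y ≃ X × (X × V) ≃ (X × X) × V ≃ X × V ≃ Y` (only `ContinuousLinearEquiv.prodCongr`,
`ContinuousLinearEquiv.prodAssoc`, `ContinuousLinearEquiv.trans`). -/
theorem pelczynski {Y V : Type*} [NormedAddCommGroup Y] [NormedSpace 𝕜 Y] [NormedAddCommGroup V]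
    [NormedSpace 𝕜 V] (hXX : Nonempty (X ≃L[𝕜] X × X)) (hY : Nonempty (Y ≃L[𝕜] X × V))
    (hXY : Nonempty (X ≃L[𝕜] X × Y)) : Nonempty (X ≃L[𝕜] Y) := by
  obtain ⟨e1⟩ := hXX
  obtain ⟨e2⟩ := hY
  obtain ⟨e3⟩ := hXY
  exact ⟨e3.trans ((((ContinuousLinearEquiv.refl 𝕜 X).prodCongr e2).trans
    (ContinuousLinearEquiv.prodAssoc 𝕜 X X V).symm).trans
    ((e1.symm.prodCongr (ContinuousLinearEquiv.refl 𝕜 V)).trans e2.symm))⟩

end Pool.Agent.SYP
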