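import Mathlib
import Pool.Agent.SYP.Defs

namespace Pool.Agent.SYP

open Filter Topology Finset

variable {𝕜 : Type*} {X : Type*} [RCLike 𝕜] [NormedAddCommGroup X] [NormedSpace 𝕜 X]

/-- Dilation and Birkhoff's theorem: a doubly substochastic matrix is a convex combination of
partial permutation matrices. -/
theorem birk_aux (N : ℕ) (s : Fin N → Fin N → ℝ) (h0 : ∀ i j, 0 ≤ s i j)
    (hr : ∀ i, ∑ j, s i j ≤ 1) (hc : ∀ j, ∑ i, s i j ≤ 1) :
    ∃ w : Equiv.Perm (Fin N ⊕ Fin N) → ℝ, (∀ σ, 0 ≤ w σ) ∧ ∑ σ, w σ = 1 ∧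
      ∀ i j, s i j = ∑ σ, w σ * (if σ (Sum.inl i) = Sum.inl j then 1 else 0) := by
  classical
  let M : Matrix (Fin N ⊕ Fin N) (Fin N ⊕ Fin N) ℝ :=
    Matrix.fromBlocks (Matrix.of s) (Matrix.diagonal fun i => 1 - ∑ j, s i j)
      (Matrix.diagonal fun j => 1 - ∑ i, s i j) (Matrix.of fun i j => s j i)
  have hM : M ∈ doublyStochastic ℝ (Fin N ⊕ Fin N) := by
    rw [mem_doublyStochastic_iff_sum]
    refine ⟨?_, ?_, ?_⟩
    · rintro (i | i) (j | j)
      · exact h0 i j
      · show 0 ≤ (Matrix.diagonal fun i => 1 - ∑ j, s i j) i j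
        rw [Matrix.diagonal_apply]
        split_ifs
        · have := hr i
          linarith
        · exact le_rfl
      · show 0 ≤ (Matrix.diagonal fun j => 1 - ∑ i, s i j) i j
        rw [Matrix.diagonal_apply]
        split_ifs
        · have := hc i
          linarith
        · exact le_rfl
      · exact h0 j i
    · rintro (i | i)
      · rw [Fintype.sum_sum_type]
        show ∑ j, s i j + ∑ j, (Matrix.diagonal fun i => 1 - ∑ j, s i j) i j = 1
        have : ∑ j, (Matrix.diagonal fun i => 1 - ∑ j, s i j) i j = 1 - ∑ j, s i j := by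
          simp [Matrix.diagonal_apply]
        rw [this]
        ring
      · rw [Fintype.sum_sum_type]
        show ∑ j, (Matrix.diagonal fun j => 1 - ∑ i, s i j) i j + ∑ j, s j i = 1
        have : ∑ j, (Matrix.diagonal fun j => 1 - ∑ i, s i j) i j = 1 - ∑ j, s j i := by
          simp [Matrix.diagonal_apply]
        rw [this]
        ring
    · rintro (j | j)
      · rw [Fintype.sum_sum_type]
        show ∑ i, s i j + ∑ i, (Matrix.diagonal fun j => 1 - ∑ i, s i j) i j = 1
        have : ∑ i, (Matrix.diagonal fun j => 1 - ∑ i, s i j) i j = 1 - ∑ i, s i j := by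
          simp [Matrix.diagonal_apply]
        rw [this]
        ring
      · rw [Fintype.sum_sum_type]
        show ∑ i, (Matrix.diagonal fun i => 1 - ∑ j, s i j) i j + ∑ i, s j i = 1
        have : ∑ i, (Matrix.diagonal fun i => 1 - ∑ j, s i j) i j = 1 - ∑ i, s j i := by
          simp [Matrix.diagonal_apply]
        rw [this]
        ring
  obtain ⟨w, h1, h2, h3⟩ := exists_eq_sum_perm_of_mem_doublyStochastic hM
  refine ⟨w, h1, h2, fun i j => ?_⟩
  have h4 := congrFun (congrFun h3 (Sum.inl i)) (Sum.inl j)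
  rw [Matrix.sum_apply] at h4
  have h5 : M (Sum.inl i) (Sum.inl j) = s i j := rfl
  rw [← h5, ← h4]
  refine Finset.sum_congr rfl fun σ _ => ?_
  rw [Matrix.smul_apply, smul_eq_mul]
  congr 1
  simp only [Equiv.Perm.permMatrix, PEquiv.toMatrix_apply, Equiv.toPEquiv_apply,
    Option.mem_def, Option.some.injEq]

theorem substochastic_le (b : SchauderBasis 𝕜 X) {K : ℝ} (h : UB b K) (N : ℕ)
    (s : ℕ → ℕ → ℝ) (h0 : ∀ i j, 0 ≤ s i j) (hr : ∀ i, ∑ j ∈ range N, s i j ≤ 1)
    (hc : ∀ j, ∑ i ∈ range N, s i j ≤ 1) (c : ℕ → 𝕜) :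
    ‖∑ i ∈ range N, (∑ j ∈ range N, (s i j : 𝕜) * c j) • b i‖ ≤
      K * ‖∑ j ∈ range N, c j • b j‖ := by
  classical
  obtain ⟨w, w0, w1, hw⟩ := birk_aux N (fun i j => s i j) (fun i j => h0 i j)
    (fun i => by rw [Fin.sum_univ_eq_sum_range (fun j => s i j)]; exact hr i)
    (fun j => by rw [Fin.sum_univ_eq_sum_range (fun i => s i j)]; exact hc j)
  -- the partial permutations
  have key : ∀ σ : Equiv.Perm (Fin N ⊕ Fin N),
      ‖∑ i : Fin N, ∑ j : Fin N, (if σ (Sum.inl i) = Sum.inl j then c j • b i else 0)‖ ≤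
        K * ‖∑ j ∈ range N, c j • b j‖ := by
    intro σ
    let g : ℕ → ℕ := fun j => if hj : j < N then
      (match σ.symm (Sum.inl ⟨j, hj⟩) with
        | Sum.inl i => (i : ℕ)
        | Sum.inr _ => 0) else 0
    let t : Finset ℕ := (range N).filter fun j => ∃ (hj : j < N) (i : Fin N),
      σ.symm (Sum.inl ⟨j, hj⟩) = Sum.inl i
    have hg : ∀ (j : Fin N) (i : Fin N), σ.symm (Sum.inl j) = Sum.inl i → g j = i := by
      intro j i hji
      show (if hj : (j : ℕ) < N then _ else _) = _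
      rw [dif_pos j.2]
      simp only [Fin.eta, hji]
    have hinj : Set.InjOn g t := by
      intro j hj j' hj' hjj
      simp only [t, Finset.coe_filter, Set.mem_ofPred_eq] at hj hj'
      obtain ⟨-, h1, i, hi⟩ := hj
      obtain ⟨-, h1', i', hi'⟩ := hj'
      have e1 := hg ⟨j, h1⟩ i hi
      have e2 := hg ⟨j', h1'⟩ i' hi'
      have e3 : i = i' := by
        apply Fin.ext
        rw [← e1, ← e2]
        exact hjj
      rw [← e3, ← hi] at hi'
      have e4 := σ.symm.injective hi'
      have e5 : (⟨j', h1'⟩ : Fin N) = ⟨j, h1⟩ := Sum.inl_injective e4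
      exact (congrArg Fin.val e5).symm
    have hsum : ∑ i : Fin N, ∑ j : Fin N, (if σ (Sum.inl i) = Sum.inl j then c j • b i else 0) =
        ∑ j ∈ t, c j • b (g j) := by
      rw [Finset.sum_comm, Finset.sum_filter, ← Fin.sum_univ_eq_sum_range
        (fun j => if ∃ (hj : j < N) (i : Fin N), σ.symm (Sum.inl ⟨j, hj⟩) = Sum.inl i then
          c j • b (g j) else 0)]
      refine Finset.sum_congr rfl fun j _ => ?_
      by_cases hj : ∃ (hj : (j : ℕ) < N) (i : Fin N), σ.symm (Sum.inl ⟨(j : ℕ), hj⟩) = Sum.inl i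
      · rw [if_pos hj]
        obtain ⟨hj, i, hi⟩ := hj
        rw [Fin.eta] at hi
        rw [hg j i hi, Finset.sum_eq_single i]
        · rw [if_pos]
          rw [← hi, Equiv.apply_symm_apply]
        · intro i' _ hne
          rw [if_neg]
          intro hc
          apply hne
          rw [← hc, Equiv.symm_apply_apply] at hi
          exact Sum.inl_injective hi
        · intro hn
          exact absurd (Finset.mem_univ i) hn
      · rw [if_neg hj]
        apply Finset.sum_eq_zero
        intro i _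
        rw [if_neg]
        intro hc
        apply hj
        refine ⟨j.2, i, ?_⟩
        rw [Fin.eta, ← hc, Equiv.symm_apply_apply]
    rw [hsum]
    exact h.2 (range N) t (Finset.filter_subset _ _) g hinj c
  have hrew : ∑ i ∈ range N, (∑ j ∈ range N, (s i j : 𝕜) * c j) • b i =
      ∑ σ, (w σ : 𝕜) • ∑ i : Fin N, ∑ j : Fin N,
        (if σ (Sum.inl i) = Sum.inl j then c j • b i else 0) := by
    rw [← Fin.sum_univ_eq_sum_range (fun i => (∑ j ∈ range N, (s i j : 𝕜) * c j) • b i)]
    simp only [Finset.smul_sum]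
    rw [Finset.sum_comm]
    refine Finset.sum_congr rfl fun i _ => ?_
    rw [Finset.sum_comm, ← Fin.sum_univ_eq_sum_range (fun j => (s i j : 𝕜) * c j), Finset.sum_smul]
    refine Finset.sum_congr rfl fun j _ => ?_
    have e1 : s i j = ∑ σ, w σ * (if σ (Sum.inl i) = Sum.inl j then 1 else 0) := hw i j
    rw [e1]
    push_cast
    rw [Finset.sum_mul, Finset.sum_smul]
    refine Finset.sum_congr rfl fun σ _ => ?_
    split_ifs
    · simp [smul_smul]
    · simp
  rw [hrew]
  calc ‖∑ σ, (w σ : 𝕜) • ∑ i : Fin N, ∑ j : Fin N,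
        (if σ (Sum.inl i) = Sum.inl j then c j • b i else 0)‖
      ≤ ∑ σ, ‖(w σ : 𝕜) • ∑ i : Fin N, ∑ j : Fin N,
        (if σ (Sum.inl i) = Sum.inl j then c j • b i else 0)‖ := norm_sum_le _ _
    _ ≤ ∑ σ, w σ * (K * ‖∑ j ∈ range N, c j • b j‖) := by
        refine Finset.sum_le_sum fun σ _ => ?_
        rw [norm_smul, RCLike.norm_ofReal, abs_of_nonneg (w0 σ)]
        exact mul_le_mul_of_nonneg_left (key σ) (w0 σ)
    _ = K * ‖∑ j ∈ range N, c j • b j‖ := by
        rw [← Finset.sum_mul, w1, one_mul]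

end Pool.Agent.SYP
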