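import Mathlib
import Pool.Agent.SYP.Defs
import Pool.Agent.SYP.R_birk
namespace Pool.Agent.SYP

open Filter Topology Finset

variable {𝕜 : Type*} {X : Type*} [RCLike 𝕜] [NormedAddCommGroup X] [NormedSpace 𝕜 X]

private theorem smat_part (b : SchauderBasis 𝕜 X) {K : ℝ} (h : UB b K) (I T : Finset ℕ) (M : ℝ)
    (hM : 0 ≤ M) (S : ℕ → ℕ → 𝕜) (hr : ∀ i ∈ I, ∑ j ∈ T, ‖S i j‖ ≤ M)
    (hc : ∀ j ∈ T, ∑ i ∈ I, ‖S i j‖ ≤ M) (c : ℕ → 𝕜) (f : 𝕜 → ℝ) (hf0 : ∀ z, 0 ≤ f z)
    (hf1 : ∀ z, f z ≤ ‖z‖) :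
    ‖∑ i ∈ I, (∑ j ∈ T, (f (S i j) : 𝕜) * c j) • b i‖ ≤ K * M * ‖∑ j ∈ T, c j • b j‖ := by
  classical
  rcases hM.eq_or_lt with hM0 | hM0
  · have hz : ∀ i ∈ I, ∀ j ∈ T, f (S i j) = 0 := by
      intro i hi j hj
      have h1 : ‖S i j‖ ≤ ∑ j ∈ T, ‖S i j‖ :=
        Finset.single_le_sum (f := fun j => ‖S i j‖) (fun _ _ => norm_nonneg _) hj
      exact le_antisymm ((hf1 _).trans (h1.trans ((hr i hi).trans hM0.ge))) (hf0 _)
    have h2 : ∑ i ∈ I, (∑ j ∈ T, (f (S i j) : 𝕜) * c j) • b i = 0 := by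
      refine Finset.sum_eq_zero fun i hi => ?_
      rw [Finset.sum_eq_zero, zero_smul]
      intro j hj
      rw [hz i hi j hj, RCLike.ofReal_zero, zero_mul]
    rw [h2, norm_zero, ← hM0]
    simp
  · obtain ⟨N, hN⟩ : ∃ N : ℕ, ∀ i ∈ I ∪ T, i < N :=
      ⟨(I ∪ T).sup id + 1, fun i hi => Nat.lt_succ_of_le (Finset.le_sup (f := id) hi)⟩
    have hI : I ⊆ range N := fun i hi => mem_range.2 (hN i (mem_union_left _ hi))
    have hT : T ⊆ range N := fun i hi => mem_range.2 (hN i (mem_union_right _ hi))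
    have key := substochastic_le b h N (fun i j => if i ∈ I ∧ j ∈ T then f (S i j) / M else 0)
      (fun i j => by
        split_ifs
        · exact div_nonneg (hf0 _) hM
        · exact le_rfl)
      (fun i => by
        by_cases hi : i ∈ I
        · rw [← Finset.sum_subset hT (fun j _ hj => if_neg (fun hh => hj hh.2))]
          rw [Finset.sum_congr rfl (fun j hj => if_pos ⟨hi, hj⟩), ← Finset.sum_div,
            div_le_one hM0]
          exact (Finset.sum_le_sum fun j _ => hf1 _).trans (hr i hi)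
        · rw [Finset.sum_eq_zero (fun j _ => if_neg (fun hh => hi hh.1))]
          exact zero_le_one)
      (fun j => by
        by_cases hj : j ∈ T
        · rw [← Finset.sum_subset hI (fun i _ hi => if_neg (fun hh => hi hh.1))]
          rw [Finset.sum_congr rfl (fun i hi => if_pos ⟨hi, hj⟩), ← Finset.sum_div,
            div_le_one hM0]
          exact (Finset.sum_le_sum fun i _ => hf1 _).trans (hc j hj)
        · rw [Finset.sum_eq_zero (fun i _ => if_neg (fun hh => hj hh.2))]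
          exact zero_le_one)
      (fun j => if j ∈ T then c j else 0)
    have e1 : ∑ j ∈ range N, (if j ∈ T then c j else 0) • b j = ∑ j ∈ T, c j • b j := by
      rw [← Finset.sum_subset hT (fun j _ hj => by rw [if_neg hj, zero_smul])]
      exact Finset.sum_congr rfl (fun j hj => by rw [if_pos hj])
    have e2 : ∑ i ∈ range N, (∑ j ∈ range N,
        ((if i ∈ I ∧ j ∈ T then f (S i j) / M else 0 : ℝ) : 𝕜) * (if j ∈ T then c j else 0)) • b i
        = ((M⁻¹ : ℝ) : 𝕜) • ∑ i ∈ I, (∑ j ∈ T, (f (S i j) : 𝕜) * c j) • b i := by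
      rw [Finset.smul_sum]
      rw [← Finset.sum_subset hI (fun i _ hi => by
        rw [Finset.sum_eq_zero, zero_smul]
        intro j _
        rw [if_neg (fun hh => hi hh.1), RCLike.ofReal_zero, zero_mul])]
      refine Finset.sum_congr rfl (fun i hi => ?_)
      rw [smul_smul, Finset.mul_sum]
      congr 1
      rw [← Finset.sum_subset hT (fun j _ hj => by rw [if_neg hj, mul_zero])]
      refine Finset.sum_congr rfl (fun j hj => ?_)
      rw [if_pos ⟨hi, hj⟩, if_pos hj, RCLike.ofReal_div, RCLike.ofReal_inv, div_eq_inv_mul,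
        mul_assoc]
    rw [e1, e2, norm_smul] at key
    have e3 : ‖((M⁻¹ : ℝ) : 𝕜)‖ = M⁻¹ := by
      rw [RCLike.norm_ofReal, abs_of_pos (inv_pos.2 hM0)]
    rw [e3, inv_mul_le_iff₀ hM0] at key
    refine key.trans (le_of_eq ?_)
    ring

/-- Matrices with bounded `ℓ₁`-norms of rows and columns: real and imaginary, positive and negative
parts are `M` times substochastic (if `M = 0` the matrix is zero there); entries outside `I × T` are
replaced by `0`, `N > max (I ∪ T)`. (`RCLike.re`, `RCLike.im`; `c` may be replaced by `0` off `T`.) -/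
theorem smatrix_le (b : SchauderBasis 𝕜 X) {K : ℝ} (h : UB b K) (I T : Finset ℕ) (M : ℝ)
    (hM : 0 ≤ M) (S : ℕ → ℕ → 𝕜) (hr : ∀ i ∈ I, ∑ j ∈ T, ‖S i j‖ ≤ M)
    (hc : ∀ j ∈ T, ∑ i ∈ I, ‖S i j‖ ≤ M) (c : ℕ → 𝕜) :
    ‖∑ i ∈ I, (∑ j ∈ T, S i j * c j) • b i‖ ≤ 4 * K * M * ‖∑ j ∈ T, c j • b j‖ := by
  have hre : ∀ z : 𝕜, |RCLike.re z| ≤ ‖z‖ := RCLike.abs_re_le_norm
  have him : ∀ z : 𝕜, |RCLike.im z| ≤ ‖z‖ := RCLike.abs_im_le_norm
  have k1 := smat_part b h I T M hM S hr hc c (fun z => max (RCLike.re z) 0)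
    (fun z => le_max_right _ _)
    (fun z => max_le ((le_abs_self _).trans (hre z)) (norm_nonneg _))
  have k2 := smat_part b h I T M hM S hr hc c (fun z => max (-RCLike.re z) 0)
    (fun z => le_max_right _ _)
    (fun z => max_le ((neg_le_abs _).trans (hre z)) (norm_nonneg _))
  have k3 := smat_part b h I T M hM S hr hc c (fun z => max (RCLike.im z) 0)
    (fun z => le_max_right _ _)
    (fun z => max_le ((le_abs_self _).trans (him z)) (norm_nonneg _))
  have k4 := smat_part b h I T M hM S hr hc c (fun z => max (-RCLike.im z) 0)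
    (fun z => le_max_right _ _)
    (fun z => max_le ((neg_le_abs _).trans (him z)) (norm_nonneg _))
  have hdec : ∀ z : 𝕜, z = ((max (RCLike.re z) 0 : ℝ) : 𝕜) - ((max (-RCLike.re z) 0 : ℝ) : 𝕜)
      + RCLike.I * ((max (RCLike.im z) 0 : ℝ) : 𝕜) - RCLike.I * ((max (-RCLike.im z) 0 : ℝ) : 𝕜) := by
    intro z
    have hx : ∀ x : ℝ, max x 0 - max (-x) 0 = x := by
      intro x
      rcases le_total x 0 with hx | hx
      · rw [max_eq_right hx, max_eq_left (by linarith)]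
        ring
      · rw [max_eq_left hx, max_eq_right (by linarith)]
        ring
    have h1 : ((max (RCLike.re z) 0 : ℝ) : 𝕜) - ((max (-RCLike.re z) 0 : ℝ) : 𝕜)
        = (RCLike.re z : 𝕜) := by
      rw [← RCLike.ofReal_sub, hx]
    have h2 : ((max (RCLike.im z) 0 : ℝ) : 𝕜) - ((max (-RCLike.im z) 0 : ℝ) : 𝕜)
        = (RCLike.im z : 𝕜) := by
      rw [← RCLike.ofReal_sub, hx]
    rw [h1, add_sub_assoc, ← mul_sub, h2, mul_comm RCLike.I]
    exact (RCLike.re_add_im z).symm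
  set v1 : X := ∑ i ∈ I, (∑ j ∈ T, ((max (RCLike.re (S i j)) 0 : ℝ) : 𝕜) * c j) • b i with hv1
  set v2 : X := ∑ i ∈ I, (∑ j ∈ T, ((max (-RCLike.re (S i j)) 0 : ℝ) : 𝕜) * c j) • b i with hv2
  set v3 : X := ∑ i ∈ I, (∑ j ∈ T, ((max (RCLike.im (S i j)) 0 : ℝ) : 𝕜) * c j) • b i with hv3
  set v4 : X := ∑ i ∈ I, (∑ j ∈ T, ((max (-RCLike.im (S i j)) 0 : ℝ) : 𝕜) * c j) • b i with hv4
  have hsum : ∑ i ∈ I, (∑ j ∈ T, S i j * c j) • b i
      = v1 - v2 + (RCLike.I : 𝕜) • v3 - (RCLike.I : 𝕜) • v4 := by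
    rw [hv1, hv2, hv3, hv4, Finset.smul_sum, Finset.smul_sum, ← Finset.sum_sub_distrib,
      ← Finset.sum_add_distrib, ← Finset.sum_sub_distrib]
    refine Finset.sum_congr rfl (fun i _ => ?_)
    rw [smul_smul, smul_smul, ← sub_smul, ← add_smul, ← sub_smul, Finset.mul_sum, Finset.mul_sum,
      ← Finset.sum_sub_distrib, ← Finset.sum_add_distrib, ← Finset.sum_sub_distrib]
    congr 1
    refine Finset.sum_congr rfl (fun j _ => ?_)
    conv_lhs => rw [hdec (S i j)]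
    ring
  have hI1 : ∀ v : X, ‖(RCLike.I : 𝕜) • v‖ ≤ ‖v‖ := by
    intro v
    rw [norm_smul]
    have h1 : ‖(RCLike.I : 𝕜)‖ ≤ 1 := by
      rcases RCLike.I_mul_I (K := 𝕜) with h0 | h0
      · rw [h0, norm_zero]
        exact zero_le_one
      · have h3 : ‖(RCLike.I : 𝕜)‖ * ‖(RCLike.I : 𝕜)‖ = 1 := by
          rw [← norm_mul, h0, norm_neg, norm_one]
        nlinarith [norm_nonneg (RCLike.I : 𝕜)]
    calc ‖(RCLike.I : 𝕜)‖ * ‖v‖ ≤ 1 * ‖v‖ := mul_le_mul_of_nonneg_right h1 (norm_nonneg _)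
      _ = ‖v‖ := one_mul _
  rw [hsum]
  have t1 : ‖v1 - v2 + (RCLike.I : 𝕜) • v3 - (RCLike.I : 𝕜) • v4‖
      ≤ ‖v1‖ + ‖v2‖ + ‖v3‖ + ‖v4‖ := by
    refine (norm_sub_le _ _).trans ?_
    refine add_le_add ((norm_add_le _ _).trans (add_le_add (norm_sub_le _ _) (hI1 _))) (hI1 _)
  linarith

end Pool.Agent.SYP
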