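import Mathlib
import Pool.Agent.SYP.Defs
import Pool.Agent.SYP.R_smat
namespace Pool.Agent.SYP

open Filter Topology Finset

variable {𝕜 : Type*} {X : Type*} [RCLike 𝕜] [NormedAddCommGroup X] [NormedSpace 𝕜 X]

private theorem samp_emb : Function.Injective (fun p : ℕ × ℕ => Nat.pair p.1 p.2) := fun p q hpq => by
  have h1 := congrArg Nat.unpair hpq
  simpa [Nat.unpair_pair] using h1

private theorem samp_sum {Y : Type*} [AddCommMonoid Y] (A B : ℕ) (g : ℕ → Y) :
    ∑ m ∈ (range A ×ˢ range B).map ⟨fun p : ℕ × ℕ => Nat.pair p.1 p.2, samp_emb⟩, g m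
      = ∑ k ∈ range A, ∑ i ∈ range B, g (Nat.pair k i) := by
  rw [Finset.sum_map, Finset.sum_product]
  rfl

/-- Bounded `ℓ₁`-norms of rows and columns imply amplifiable: apply `smatrix_le` with
`I = image of range N × range I₀`, `T = image of range N × range N` under `Nat.pair` and
`S (pair k i) (pair k' n) = [k = k'] coord_i (P b_n)`. -/
theorem amplifiable_of_l1 (b : SchauderBasis 𝕜 X) {K : ℝ} (h : UB b K) (P : X →L[𝕜] X) (M : ℝ)
    (hr : ∀ i N, ∑ j ∈ range N, ‖b.coord i (P (b j))‖ ≤ M)
    (hc : ∀ j N, ∑ i ∈ range N, ‖b.coord i (P (b j))‖ ≤ M) : Amplifiable b P := by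
  classical
  have hM : 0 ≤ M := by simpa using hr 0 0
  refine ⟨4 * K * M, fun N I₀ c => ?_⟩
  have key := smatrix_le b h
    ((range N ×ˢ range I₀).map ⟨fun p : ℕ × ℕ => Nat.pair p.1 p.2, samp_emb⟩)
    ((range N ×ˢ range N).map ⟨fun p : ℕ × ℕ => Nat.pair p.1 p.2, samp_emb⟩) M hM
    (fun m m' => if (Nat.unpair m).1 = (Nat.unpair m').1 then
      b.coord (Nat.unpair m).2 (P (b (Nat.unpair m').2)) else 0)
    (by
      intro m hm
      rw [Finset.mem_map] at hm
      obtain ⟨⟨k, i⟩, hki, rfl⟩ := hm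
      have hk := (Finset.mem_product.1 hki).1
      rw [samp_sum]
      simp only [Function.Embedding.coeFn_mk, Nat.unpair_pair]
      rw [Finset.sum_eq_single_of_mem k hk]
      · simpa using hr i N
      · intro k' _ hk'
        refine Finset.sum_eq_zero fun n _ => ?_
        rw [if_neg (fun e => hk' e.symm), norm_zero])
    (by
      intro m hm
      rw [Finset.mem_map] at hm
      obtain ⟨⟨k, n⟩, hkn, rfl⟩ := hm
      have hk := (Finset.mem_product.1 hkn).1
      rw [samp_sum]
      simp only [Function.Embedding.coeFn_mk, Nat.unpair_pair]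
      rw [Finset.sum_eq_single_of_mem k hk]
      · simpa using hc n I₀
      · intro k' _ hk'
        refine Finset.sum_eq_zero fun n _ => ?_
        rw [if_neg hk', norm_zero])
    (fun m => c (Nat.unpair m).1 (Nat.unpair m).2)
  simp only [samp_sum, Nat.unpair_pair] at key
  have e1 : ∑ k ∈ range N, ∑ i ∈ range I₀,
      b.coord i (P (∑ n ∈ range N, c k n • b n)) • b (Nat.pair k i)
      = ∑ k ∈ range N, ∑ i ∈ range I₀, (∑ k' ∈ range N, ∑ n ∈ range N,
          (if k = k' then b.coord i (P (b n)) else 0) * c k' n) • b (Nat.pair k i) := by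
    refine Finset.sum_congr rfl fun k hk => Finset.sum_congr rfl fun i _ => ?_
    congr 1
    refine Eq.symm ((Finset.sum_eq_single_of_mem k hk ?_).trans ?_)
    · intro k' _ hk'
      refine Finset.sum_eq_zero fun n _ => ?_
      rw [if_neg (fun e => hk' e.symm), zero_mul]
    · rw [map_sum, map_sum]
      refine Finset.sum_congr rfl fun n _ => ?_
      rw [if_pos rfl, map_smul, map_smul, smul_eq_mul, mul_comm]
  rw [e1]
  exact key

end Pool.Agent.SYP
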