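import Mathlib
import Pool.Agent.SYP.Defs
import Pool.Agent.SYP.R_J
import Pool.Agent.SYP.R_ext
namespace Pool.Agent.SYP

open Filter Topology Finset

variable {𝕜 : Type*} {X : Type*} [RCLike 𝕜] [NormedAddCommGroup X] [NormedSpace 𝕜 X]

/-- Self-similar: `P` commutes with the two shift operators. `Ja, Ra` (for `α`), `Jb, Rb` (for
`β`) from `exists_J`; `Ra Ja = 1`, `Rb Jb = 1`, `Ra Jb = 0`, `Rb Ja = 0`, `Ja Ra + Jb Rb = 1` (basis,
complementary ranges); `P Ja = Ja P`, `P Jb = Jb P` (compare all coordinates of both sides on `b_j`;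
`coord_m (Ja y) = 0` for `m ∉ range α`, `coord_{α i} (Ja y) = coord_i y`; a vector with all
coordinates `0` is `0` by `b.expansion`), hence `Ra P = P Ra`, `Rb P = P Rb`. So
`x ↦ (Ra x, Rb x)` maps `X ≃ X × X` and `range P` onto `range P × range P` (inverse
`(y, z) ↦ Ja y + Jb z`). -/
theorem self_sq [CompleteSpace X] (b : SchauderBasis 𝕜 X) {K : ℝ} (h : UB b K)
    (P : X →L[𝕜] X) (hP : P ∘L P = P) (hS : SelfSimilar b P) :
    Nonempty (LinearMap.range P.toLinearMap ≃L[𝕜]
      (LinearMap.range P.toLinearMap) × (LinearMap.range P.toLinearMap)) := by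
  obtain ⟨α, β, hα, hβ, hαβ, hS⟩ := hS
  obtain ⟨Ja, Ra, hJa, hRa, hRa0⟩ := exists_J b h α hα
  obtain ⟨Jb, Rb, hJb, hRb, hRb0⟩ := exists_J b h β hβ
  have hba : ∀ n, β n ∉ Set.range α := fun n hn => (hαβ _).1 hn ⟨n, rfl⟩
  have hab : ∀ n, α n ∉ Set.range β := fun n => (hαβ _).1 ⟨n, rfl⟩
  have hRaJa : ∀ x, Ra (Ja x) = x := by
    intro x
    have : Ra ∘L Ja = ContinuousLinearMap.id 𝕜 X := by
      apply ext_basis b
      intro i
      simp [hJa, hRa]
    exact congrArg (fun T : X →L[𝕜] X => T x) this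
  have hRbJb : ∀ x, Rb (Jb x) = x := by
    intro x
    have : Rb ∘L Jb = ContinuousLinearMap.id 𝕜 X := by
      apply ext_basis b
      intro i
      simp [hJb, hRb]
    exact congrArg (fun T : X →L[𝕜] X => T x) this
  have hRaJb : ∀ x, Ra (Jb x) = 0 := by
    intro x
    have : Ra ∘L Jb = 0 := by
      apply ext_basis b
      intro i
      simp [hJb, hRa0 _ (hba i)]
    exact congrArg (fun T : X →L[𝕜] X => T x) this
  have hRbJa : ∀ x, Rb (Ja x) = 0 := by
    intro x
    have : Rb ∘L Ja = 0 := by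
      apply ext_basis b
      intro i
      simp [hJa, hRb0 _ (hab i)]
    exact congrArg (fun T : X →L[𝕜] X => T x) this
  have hsum : ∀ x, Ja (Ra x) + Jb (Rb x) = x := by
    intro x
    have : Ja ∘L Ra + Jb ∘L Rb = ContinuousLinearMap.id 𝕜 X := by
      apply ext_basis b
      intro i
      by_cases hi : i ∈ Set.range α
      · obtain ⟨n, rfl⟩ := hi
        simp [hRa, hJa, hRb0 _ (hab n)]
      · have hi' : i ∈ Set.range β := by
          by_contra h'
          exact hi ((hαβ i).2 h')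
        obtain ⟨n, rfl⟩ := hi'
        simp [hRb, hJb, hRa0 _ (hba n)]
    exact congrArg (fun T : X →L[𝕜] X => T x) this
  have hort : ∀ i j, b.coord i (b j) = (Pi.single j (1 : 𝕜) : ℕ → 𝕜) i := by
    intro i j
    rw [b.ortho i j]
    simp only [Pi.single_apply]
    split_ifs <;> rfl
  have hca : ∀ i x, b.coord (α i) (Ja x) = b.coord i x := by
    intro i x
    have : (b.coord (α i)) ∘L Ja = b.coord i := by
      apply ext_basis b
      intro n
      rw [ContinuousLinearMap.comp_apply, hJa, hort, hort]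
      by_cases hin : i = n
      · subst hin; simp
      · rw [Pi.single_eq_of_ne (fun hh => hin (hα hh)), Pi.single_eq_of_ne hin]
    exact congrArg (fun T : X →L[𝕜] 𝕜 => T x) this
  have hcb : ∀ i x, b.coord (β i) (Jb x) = b.coord i x := by
    intro i x
    have : (b.coord (β i)) ∘L Jb = b.coord i := by
      apply ext_basis b
      intro n
      rw [ContinuousLinearMap.comp_apply, hJb, hort, hort]
      by_cases hin : i = n
      · subst hin; simp
      · rw [Pi.single_eq_of_ne (fun hh => hin (hβ hh)), Pi.single_eq_of_ne hin]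
    exact congrArg (fun T : X →L[𝕜] 𝕜 => T x) this
  have hca0 : ∀ i x, b.coord (β i) (Ja x) = 0 := by
    intro i x
    have : (b.coord (β i)) ∘L Ja = 0 := by
      apply ext_basis b
      intro n
      rw [ContinuousLinearMap.comp_apply, hJa, hort,
        Pi.single_eq_of_ne (fun hh => hba i ⟨n, hh.symm⟩)]
      rfl
    exact congrArg (fun T : X →L[𝕜] 𝕜 => T x) this
  have hcb0 : ∀ i x, b.coord (α i) (Jb x) = 0 := by
    intro i x
    have : (b.coord (α i)) ∘L Jb = 0 := by
      apply ext_basis b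
      intro n
      rw [ContinuousLinearMap.comp_apply, hJb, hort,
        Pi.single_eq_of_ne (fun hh => hab i ⟨n, hh.symm⟩)]
      rfl
    exact congrArg (fun T : X →L[𝕜] 𝕜 => T x) this
  have hext : ∀ x y : X, (∀ i, b.coord i x = b.coord i y) → x = y := by
    intro x y hxy
    have h1 := b.expansion x
    have h2 := b.expansion y
    simp only [hxy] at h1
    exact h1.unique h2
  have hcase : ∀ m, (∃ n, m = α n) ∨ (∃ n, m = β n) := by
    intro m
    by_cases hi : m ∈ Set.range α
    · obtain ⟨n, rfl⟩ := hi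
      exact Or.inl ⟨n, rfl⟩
    · right
      have hi' : m ∈ Set.range β := by
        by_contra h'
        exact hi ((hαβ m).2 h')
      obtain ⟨n, rfl⟩ := hi'
      exact ⟨n, rfl⟩
  have hPJa : ∀ x, P (Ja x) = Ja (P x) := by
    intro x
    have : P ∘L Ja = Ja ∘L P := by
      apply ext_basis b
      intro j
      rw [ContinuousLinearMap.comp_apply, ContinuousLinearMap.comp_apply, hJa]
      apply hext
      intro m
      rcases hcase m with ⟨n, rfl⟩ | ⟨n, rfl⟩
      · rw [hca, (hS n j).1]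
      · rw [hca0, (hS n j).2.2.2]
    exact congrArg (fun T : X →L[𝕜] X => T x) this
  have hPJb : ∀ x, P (Jb x) = Jb (P x) := by
    intro x
    have : P ∘L Jb = Jb ∘L P := by
      apply ext_basis b
      intro j
      rw [ContinuousLinearMap.comp_apply, ContinuousLinearMap.comp_apply, hJb]
      apply hext
      intro m
      rcases hcase m with ⟨n, rfl⟩ | ⟨n, rfl⟩
      · rw [hcb0, (hS n j).2.2.1]
      · rw [hcb, (hS n j).2.1]
    exact congrArg (fun T : X →L[𝕜] X => T x) this
  have hRaP : ∀ x, Ra (P x) = P (Ra x) := by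
    intro x
    have h1 := hsum x
    calc Ra (P x) = Ra (P (Ja (Ra x) + Jb (Rb x))) := by rw [h1]
      _ = P (Ra x) := by rw [map_add, hPJa, hPJb, map_add, hRaJa, hRaJb, add_zero]
  have hRbP : ∀ x, Rb (P x) = P (Rb x) := by
    intro x
    have h1 := hsum x
    calc Rb (P x) = Rb (P (Ja (Ra x) + Jb (Rb x))) := by rw [h1]
      _ = P (Rb x) := by rw [map_add, hPJa, hPJb, map_add, hRbJa, hRbJb, zero_add]
  set V := LinearMap.range P.toLinearMap with hV
  have hVa : ∀ x ∈ V, Ra x ∈ V := by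
    rintro x ⟨z, rfl⟩
    exact ⟨Ra z, (hRaP z).symm⟩
  have hVb : ∀ x ∈ V, Rb x ∈ V := by
    rintro x ⟨z, rfl⟩
    exact ⟨Rb z, (hRbP z).symm⟩
  have hVJa : ∀ x ∈ V, Ja x ∈ V := by
    rintro x ⟨z, rfl⟩
    exact ⟨Ja z, hPJa z⟩
  have hVJb : ∀ x ∈ V, Jb x ∈ V := by
    rintro x ⟨z, rfl⟩
    exact ⟨Jb z, hPJb z⟩
  let f : V →L[𝕜] V × V :=
    ((Ra ∘L V.subtypeL).codRestrict V (fun x => hVa x x.2)).prod
      ((Rb ∘L V.subtypeL).codRestrict V (fun x => hVb x x.2))
  let g : V × V →L[𝕜] V :=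
    ((Ja ∘L V.subtypeL).codRestrict V (fun x => hVJa x x.2)) ∘L
      (ContinuousLinearMap.fst 𝕜 V V) +
    ((Jb ∘L V.subtypeL).codRestrict V (fun x => hVJb x x.2)) ∘L
      (ContinuousLinearMap.snd 𝕜 V V)
  refine ⟨ContinuousLinearEquiv.equivOfInverse f g ?_ ?_⟩
  · intro x
    apply Subtype.ext
    have : ((g (f x) : V) : X) = Ja (Ra x) + Jb (Rb x) := rfl
    rw [this, hsum]
  · rintro ⟨y, z⟩
    have h1 : ((f (g (y, z))).1 : X) = Ra (Ja y + Jb z) := rfl
    have h2 : ((f (g (y, z))).2 : X) = Rb (Ja y + Jb z) := rfl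
    apply Prod.ext
    · apply Subtype.ext
      rw [h1, map_add, hRaJa, hRaJb, add_zero]
    · apply Subtype.ext
      rw [h2, map_add, hRbJa, hRbJb, zero_add]

end Pool.Agent.SYP
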