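import Mathlib
import Pool.Agent.SYP.Defs

namespace Pool.Agent.SYP

open Filter Topology Finset

variable {𝕜 : Type*} {X : Type*} [RCLike 𝕜] [NormedAddCommGroup X] [NormedSpace 𝕜 X]

/-- The complementary projection of a self-similar one is self-similar (same `α, β`; biorthogonality
`b.ortho`, `α, β` injective with disjoint ranges). -/
theorem self_compl (b : SchauderBasis 𝕜 X) (P : X →L[𝕜] X) (hS : SelfSimilar b P) :
    SelfSimilar b (ContinuousLinearMap.id 𝕜 X - P) := by
  obtain ⟨α, β, hα, hβ, hd, h⟩ := hS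
  have hne : ∀ i j, α i ≠ β j := fun i j he => (hd (α i)).1 ⟨i, rfl⟩ ⟨j, he.symm⟩
  have ho1 : ∀ i, b.coord i (b i) = 1 := fun i => by
    rw [b.ortho]
    unfold Pi.single
    simp
  have ho0 : ∀ i j, i ≠ j → b.coord i (b j) = 0 := fun i j hij => by
    rw [b.ortho]
    unfold Pi.single Function.update
    rw [dif_neg hij]
    rfl
  have ho : ∀ γ : ℕ → ℕ, Function.Injective γ → ∀ i j, b.coord (γ i) (b (γ j)) = b.coord i (b j) := by
    intro γ hγ i j
    by_cases hij : i = j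
    · rw [hij, ho1, ho1]
    · rw [ho0 i j hij, ho0 _ _ (fun he => hij (hγ he))]
  refine ⟨α, β, hα, hβ, hd, fun i j => ?_⟩
  obtain ⟨h1, h2, h3, h4⟩ := h i j
  have hid : ∀ x : X, (ContinuousLinearMap.id 𝕜 X - P) x = x - P x := fun x => rfl
  refine ⟨?_, ?_, ?_, ?_⟩
  · rw [hid, hid, map_sub, map_sub, h1, ho α hα]
  · rw [hid, hid, map_sub, map_sub, h2, ho β hβ]
  · rw [hid, map_sub, h3, sub_zero, ho0 _ _ (hne i j)]
  · rw [hid, map_sub, h4, sub_zero, ho0 _ _ (fun he => hne j i he.symm)]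

end Pool.Agent.SYP
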