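import Mathlib
import Pool.Agent.SYP.Defs

namespace Pool.Agent.SYP

open Filter Topology Finset

variable {𝕜 : Type*} {X : Type*} [RCLike 𝕜] [NormedAddCommGroup X] [NormedSpace 𝕜 X]

/-- Basis constant and coordinate bounds of a Schauder basis (`SchauderBasis.exists_norm_proj_le`,
`|coord_i x| ‖b_i‖ = ‖P_{i+1} x - P_i x‖`). -/
theorem exists_coord_bound [CompleteSpace X] (b : SchauderBasis 𝕜 X) :
    ∃ C : ℝ, 1 ≤ C ∧ (∀ (n : ℕ) (x : X), ‖∑ i ∈ range n, b.coord i x • b i‖ ≤ C * ‖x‖) ∧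
      ∀ (i : ℕ) (x : X), ‖b.coord i x‖ * ‖b i‖ ≤ C * ‖x‖ := by
  obtain ⟨C0, hC0⟩ := SchauderBasis.exists_norm_proj_le b
  have h0 : 0 ≤ C0 := (norm_nonneg _).trans (hC0 0)
  have hP : ∀ (n : ℕ) (x : X), ‖∑ i ∈ range n, b.coord i x • b i‖ ≤ C0 * ‖x‖ := by
    intro n x
    rw [← SchauderBasis.proj_apply]
    exact ((SchauderBasis.proj b n).le_opNorm x).trans
      (mul_le_mul_of_nonneg_right (hC0 n) (norm_nonneg x))
  refine ⟨max 1 (2 * C0), le_max_left _ _, fun n x => (hP n x).trans ?_, fun i x => ?_⟩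
  · refine mul_le_mul_of_nonneg_right ?_ (norm_nonneg x)
    exact le_trans (by linarith) (le_max_right _ _)
  · have e : b.coord i x • b i = (∑ j ∈ range (i + 1), b.coord j x • b j) -
        ∑ j ∈ range i, b.coord j x • b j := by
      rw [Finset.sum_range_succ]; abel
    calc ‖b.coord i x‖ * ‖b i‖ = ‖b.coord i x • b i‖ := (norm_smul _ _).symm
      _ ≤ C0 * ‖x‖ + C0 * ‖x‖ := by
          rw [e]; exact (norm_sub_le _ _).trans (add_le_add (hP _ x) (hP _ x))
      _ = 2 * C0 * ‖x‖ := by ring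
      _ ≤ _ := mul_le_mul_of_nonneg_right (le_max_right _ _) (norm_nonneg x)

end Pool.Agent.SYP
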