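import Mathlib
import Pool.Agent.SYP.Defs

namespace Pool.Agent.SYP

open Filter Topology Finset

variable {𝕜 : Type*} {X : Type*} [RCLike 𝕜] [NormedAddCommGroup X] [NormedSpace 𝕜 X]

/-- An injection defined on a set `S` of natural numbers extends to a permutation of `ℕ` if the
complements of `S` and of the image are infinite.
Proof: two infinite subsets of `ℕ` are in bijection (`Denumerable`, `Nat.Subtype.orderIsoOfNat`);
glue with `Equiv.Set.sumCompl` (or define `π` piecewise and prove bijectivity). -/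
theorem exists_perm_extend (S : Set ℕ) (σ : ℕ → ℕ) (hσ : Set.InjOn σ S) (h1 : Sᶜ.Infinite)
    (h2 : (σ '' S)ᶜ.Infinite) : ∃ π : Equiv.Perm ℕ, ∀ i ∈ S, π i = σ i := by
  classical
  let e1 : S ≃ (σ '' S : Set ℕ) := Equiv.ofBijective (fun i => ⟨σ i, Set.mem_image_of_mem σ i.2⟩)
    ⟨fun i j h => Subtype.ext (hσ i.2 j.2 (congrArg Subtype.val h)), fun y => by
      obtain ⟨i, hi, h⟩ := y.2
      exact ⟨⟨i, hi⟩, Subtype.ext h⟩⟩
  have : Infinite (Sᶜ : Set ℕ) := h1.to_subtype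
  have : Infinite ((σ '' S)ᶜ : Set ℕ) := h2.to_subtype
  obtain ⟨e2⟩ : Nonempty ((Sᶜ : Set ℕ) ≃ ((σ '' S)ᶜ : Set ℕ)) :=
    Cardinal.eq.1 ((Cardinal.mk_eq_aleph0 _).trans (Cardinal.mk_eq_aleph0 _).symm)
  refine ⟨(Equiv.Set.sumCompl S).symm.trans ((Equiv.sumCongr e1 e2).trans (Equiv.Set.sumCompl (σ '' S))), ?_⟩
  intro i hi
  simp only [Equiv.trans_apply]
  rw [Equiv.Set.sumCompl_symm_apply_of_mem hi, Equiv.sumCongr_apply, Sum.map_inl, Equiv.Set.sumCompl_apply_inl]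
  rfl

end Pool.Agent.SYP
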