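import Mathlib
import Pool.Agent.SYP.Defs
import Pool.Agent.SYP.R_perm
import Pool.Agent.SYP.R_cb
namespace Pool.Agent.SYP

open Filter Topology Finset

variable {𝕜 : Type*} {X : Type*} [RCLike 𝕜] [NormedAddCommGroup X] [NormedSpace 𝕜 X]

/-- Gliding hump. Suppose bad `(S, σ, c)` exist beyond every `a` for every `ε`. Choose inductively
`a_0 = 0 < a_1 < ...` and `(S_k, σ_k, c^k)` with `a_k ≤ i, σ_k i` and `i + 1, σ_k i + 1 < a_{k+1}`
for `i ∈ S_k` (so the point `a_{k+1} - 1` is free in the domain and in the image),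
`‖∑_{S_k} c^k_i b_i‖ ≤ 2^{-k}` and `1 ≤ ‖∑_{S_k} c^k_i b_{σ_k i}‖`. By `exists_perm_extend` (with
`S = ⋃ S_k`) there is a permutation `π` with `π = σ_k` on `S_k`. Put `a n = c^k_n` for `n ∈ S_k`,
`0` elsewhere. `∑ a_n b_n` converges (the partial sum inside block `k` is `P_N` of the block vector,
norm `≤ C 2^{-k}` by `exists_coord_bound`; Cauchy), so `∑ a_n b_{π n}` converges by `IsSymmetric`,
but its partial sums at `a_k` and `a_{k+1}` differ by a vector of norm `≥ 1`. -/
theorem gliding_hump [CompleteSpace X] (b : SchauderBasis 𝕜 X) (hb : IsSymmetric b) :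
    ¬ ∀ (a : ℕ) (ε : ℝ), 0 < ε → ∃ (S : Finset ℕ) (σ : ℕ → ℕ) (c : ℕ → 𝕜),
      (∀ i ∈ S, a ≤ i ∧ a ≤ σ i) ∧ Set.InjOn σ S ∧ ‖∑ i ∈ S, c i • b i‖ ≤ ε ∧
      1 ≤ ‖∑ i ∈ S, c i • b (σ i)‖ := by
  intro h
  obtain ⟨T, τ, d, A, hA0, hA, hT, hinj, hsm, hbig⟩ : ∃ (T : ℕ → Finset ℕ) (τ : ℕ → ℕ → ℕ)
      (d : ℕ → ℕ → 𝕜) (A : ℕ → ℕ), A 0 = 0 ∧ (∀ k, A k + 2 ≤ A (k + 1)) ∧
      (∀ k, ∀ i ∈ T k, A k ≤ i ∧ A k ≤ τ k i ∧ i + 1 < A (k + 1) ∧ τ k i + 1 < A (k + 1)) ∧
      (∀ k, Set.InjOn (τ k) (T k)) ∧ (∀ k, ‖∑ i ∈ T k, d k i • b i‖ ≤ (1 / 2 : ℝ) ^ k) ∧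
      ∀ k, 1 ≤ ‖∑ i ∈ T k, d k i • b (τ k i)‖ := by
    choose S σ c h1 h2 h3 h4 using fun (a k : ℕ) => h a ((1 / 2 : ℝ) ^ k) (by positivity)
    obtain ⟨A, A0, As⟩ : ∃ A : ℕ → ℕ, A 0 = 0 ∧ ∀ k, A (k + 1) =
        (S (A k) k).sup id + (S (A k) k).sup (σ (A k) k) + A k + 2 :=
      ⟨fun k => Nat.rec 0 (fun k a => (S a k).sup id + (S a k).sup (σ a k) + a + 2) k, rfl,
        fun k => rfl⟩
    refine ⟨fun k => S (A k) k, fun k => σ (A k) k, fun k => c (A k) k, A, A0, fun k => ?_,
      fun k i hi => ?_, fun k => h2 _ _, fun k => h3 _ _, fun k => h4 _ _⟩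
    · rw [As]
      omega
    · have e1 : i ≤ (S (A k) k).sup id := Finset.le_sup (f := id) hi
      have e2 : σ (A k) k i ≤ (S (A k) k).sup (σ (A k) k) := Finset.le_sup (f := σ (A k) k) hi
      have e3 := h1 (A k) k i hi
      rw [As]
      refine ⟨e3.1, e3.2, ?_, ?_⟩
      · omega
      · show σ (A k) k i + 1 < _
        omega
  clear h
  have hmono : StrictMono A := strictMono_nat_of_lt_succ fun k => by
    have := hA k
    omega
  have hge : ∀ k, k ≤ A k := hmono.id_le
  -- the block of a number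
  obtain ⟨K, hK1, hK2⟩ : ∃ K : ℕ → ℕ, (∀ n, A (K n) ≤ n) ∧ ∀ n, n < A (K n + 1) := by
    refine ⟨fun n => Nat.findGreatest (fun k => A k ≤ n) n, fun n => ?_, fun n => ?_⟩
    · exact Nat.findGreatest_spec (P := fun k => A k ≤ n) (Nat.zero_le n) (by
        show A 0 ≤ n
        rw [hA0]
        exact Nat.zero_le n)
    · by_contra hcon
      rw [not_lt] at hcon
      have h5 := hge (Nat.findGreatest (fun k => A k ≤ n) n + 1)
      have h6 := Nat.le_findGreatest (P := fun k => A k ≤ n) (le_trans h5 hcon) hcon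
      omega
  have huniq : ∀ k n, A k ≤ n → n < A (k + 1) → K n = k := by
    intro k n e1 e2
    have e3 : A k < A (K n + 1) := lt_of_le_of_lt e1 (hK2 n)
    have e4 : A (K n) < A (k + 1) := lt_of_le_of_lt (hK1 n) e2
    have e5 := hmono.lt_iff_lt.1 e3
    have e6 := hmono.lt_iff_lt.1 e4
    omega
  have hKT : ∀ k, ∀ i ∈ T k, K i = k := fun k i hi =>
    huniq k i (hT k i hi).1 (by have := (hT k i hi).2.2.1; omega)
  have hKτ : ∀ k, ∀ i ∈ T k, K (τ k i) = k := fun k i hi =>
    huniq k _ (hT k i hi).2.1 (by have := (hT k i hi).2.2.2; omega)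
  have hKl : ∀ k, K (A (k + 1) - 1) = k := fun k => by
    have := hA k
    exact huniq k _ (by omega) (by omega)
  obtain ⟨π, hπ⟩ := exists_perm_extend {n | n ∈ T (K n)} (fun n => τ (K n) n) (by
      intro n hn m hm hnm
      have hn' : n ∈ T (K n) := hn
      have hm' : m ∈ T (K m) := hm
      have hnm' : τ (K n) n = τ (K m) m := hnm
      have e1 := hKτ _ n hn'
      have e2 := hKτ _ m hm'
      rw [hnm', e2] at e1
      rw [← e1] at hn' hnm'
      exact hinj _ hn' hm' hnm')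
    (Set.infinite_of_injective_forall_mem (f := fun k => A (k + 1) - 1) (by
      intro k l hkl
      have hkl' : A (k + 1) - 1 = A (l + 1) - 1 := hkl
      rw [← hKl k, ← hKl l, hkl']) (by
      intro k hk
      have hk' : A (k + 1) - 1 ∈ T (K (A (k + 1) - 1)) := hk
      rw [hKl] at hk'
      have := (hT k _ hk').2.2.1
      omega))
    (Set.infinite_of_injective_forall_mem (f := fun k => A (k + 1) - 1) (by
      intro k l hkl
      have hkl' : A (k + 1) - 1 = A (l + 1) - 1 := hkl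
      rw [← hKl k, ← hKl l, hkl']) (by
      rintro k ⟨n, hn, hk⟩
      have hn' : n ∈ T (K n) := hn
      have hk' : τ (K n) n = A (k + 1) - 1 := hk
      have e1 := hKτ _ n hn'
      rw [hk', hKl] at e1
      rw [← e1] at hn' hk'
      have := (hT k _ hn').2.2.2
      omega))
  -- the coefficients
  classical
  set a : ℕ → 𝕜 := fun n => if n ∈ T (K n) then d (K n) n else 0 with ha
  have hblock : ∀ (g : ℕ → X) (k : ℕ),
      ∑ n ∈ range (A (k + 1)), a n • g n - ∑ n ∈ range (A k), a n • g n =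
        ∑ i ∈ T k, d k i • g i := by
    intro g k
    rw [← Finset.sum_Ico_eq_sub _ (hmono (Nat.lt_succ_self k)).le]
    symm
    have hsub : T k ⊆ Finset.Ico (A k) (A (k + 1)) := fun i hi => by
      rw [Finset.mem_Ico]
      have := hT k i hi
      omega
    rw [← Finset.sum_subset hsub (fun n hn hnT => ?_)]
    · refine Finset.sum_congr rfl fun i hi => ?_
      rw [ha]
      simp only [hKT k i hi, if_pos hi]
    · rw [Finset.mem_Ico] at hn
      rw [ha]
      simp only [huniq k n hn.1 hn.2, if_neg hnT, zero_smul]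
  obtain ⟨C, hC1, hC2, -⟩ := exists_coord_bound b
  have hcoord : ∀ (k N : ℕ), A k ≤ N → N ≤ A (k + 1) →
      ∑ n ∈ range N, a n • b n - ∑ n ∈ range (A k), a n • b n =
        ∑ i ∈ range N, b.coord i (∑ j ∈ T k, d k j • b j) • b i := by
    intro k N e1 e2
    rw [← Finset.sum_Ico_eq_sub _ e1, ← Finset.sum_range_add_sum_Ico _ e1]
    have hco : ∀ i, b.coord i (∑ j ∈ T k, d k j • b j) = if i ∈ T k then d k i else 0 := by
      intro i
      rw [map_sum]
      simp only [map_smul, smul_eq_mul]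
      have e : ∀ j ∈ T k, d k j * b.coord i (b j) = if j = i then d k i else 0 := by
        intro j _
        rw [b.ortho]
        by_cases hij : j = i
        · subst hij
          simp
        · rw [if_neg hij]
          refine mul_eq_zero_of_right _ ?_
          exact @Pi.single_eq_of_ne ℕ (fun _ => 𝕜) _ (fun a b => Classical.propDecidable (a = b)) j i
            (Ne.symm hij) 1
      rw [Finset.sum_congr rfl e, Finset.sum_ite_eq']
    have z : ∑ i ∈ range (A k), b.coord i (∑ j ∈ T k, d k j • b j) • b i = 0 := by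
      refine Finset.sum_eq_zero fun i hi => ?_
      rw [Finset.mem_range] at hi
      rw [hco, if_neg, zero_smul]
      intro hiT
      have := (hT k i hiT).1
      omega
    rw [z, zero_add]
    refine Finset.sum_congr rfl fun i hi => ?_
    rw [Finset.mem_Ico] at hi
    rw [hco, ha]
    simp only [huniq k i hi.1 (by omega)]
  have hconv : ∃ x, Tendsto (fun N => ∑ n ∈ range N, a n • b n) atTop (𝓝 x) := by
    have hcau : CauchySeq (fun k => ∑ n ∈ range (A k), a n • b n) := by
      refine cauchySeq_of_le_geometric (1 / 2 : ℝ) 1 (by norm_num) fun k => ?_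
      rw [dist_comm, dist_eq_norm, hblock, one_mul]
      exact hsm k
    obtain ⟨x, hx⟩ := cauchySeq_tendsto_of_complete hcau
    have hKt : Tendsto K atTop atTop := by
      rw [tendsto_atTop]
      intro m
      filter_upwards [eventually_ge_atTop (A m)] with N hN
      have e1 := hK2 N
      have e2 := hmono.lt_iff_lt.1 (lt_of_le_of_lt hN e1)
      omega
    refine ⟨x, ?_⟩
    have h1 : Tendsto (fun N => ∑ n ∈ range (A (K N)), a n • b n) atTop (𝓝 x) := hx.comp hKt
    have h2 : Tendsto (fun N => ∑ n ∈ range N, a n • b n - ∑ n ∈ range (A (K N)), a n • b n)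
        atTop (𝓝 0) := by
      have h3 : Tendsto (fun N => C * (1 / 2 : ℝ) ^ (K N)) atTop (𝓝 0) := by
        have h4 := (tendsto_pow_atTop_nhds_zero_of_lt_one (by norm_num : (0 : ℝ) ≤ 1 / 2)
          (by norm_num)).comp hKt
        simpa using h4.const_mul C
      refine squeeze_zero_norm (fun N => ?_) h3
      rw [hcoord (K N) N (hK1 N) (hK2 N).le]
      refine (hC2 N _).trans ?_
      exact mul_le_mul_of_nonneg_left (hsm _) (by linarith)
    simpa using h1.add h2
  obtain ⟨y, hy⟩ := ((hb π).2 a).1 hconv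
  have hy1 : Tendsto (fun k => ∑ n ∈ range (A k), a n • b (π n)) atTop (𝓝 y) :=
    hy.comp hmono.tendsto_atTop
  have hy2 : Tendsto (fun k => ∑ n ∈ range (A (k + 1)), a n • b (π n)) atTop (𝓝 y) :=
    hy1.comp (tendsto_add_atTop_nat 1)
  have hy3 := (hy2.sub hy1).norm
  rw [sub_self, norm_zero] at hy3
  have hy4 := hy3.eventually (gt_mem_nhds (zero_lt_one' ℝ))
  obtain ⟨k, hk⟩ := hy4.exists
  have e1 := hblock (fun n => b (π n)) k
  rw [e1] at hk
  have e2 : ∑ i ∈ T k, d k i • b (π i) = ∑ i ∈ T k, d k i • b (τ k i) := by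
    refine Finset.sum_congr rfl fun i hi => ?_
    have e3 := hπ i (by
      show i ∈ T (K i)
      rw [hKT k i hi]
      exact hi)
    rw [e3, hKT k i hi]
  rw [e2] at hk
  have := hbig k
  linarith

end Pool.Agent.SYP
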