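import Mathlib
import Pool.Agent.SYP.Defs
import Pool.Agent.SYP.R_hump
namespace Pool.Agent.SYP

open Filter Topology Finset

variable {𝕜 : Type*} {X : Type*} [RCLike 𝕜] [NormedAddCommGroup X] [NormedSpace 𝕜 X]

/-- A symmetric basis is seminormalised. By `gliding_hump` there are `a` and `ε > 0` such that no bad
triple exists; `S = {i}`, `σ i = j`, `c = 1 / ‖b_j‖` shows `‖b_i‖ > ε ‖b_j‖` for all `i, j ≥ a`; the
finitely many `b_i`, `i < a`, are nonzero (`b.ortho`), take a maximum. -/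
theorem exists_ratio_bound [CompleteSpace X] (b : SchauderBasis 𝕜 X) (hb : IsSymmetric b) :
    ∃ R : ℝ, 0 < R ∧ ∀ i j, ‖b i‖ ≤ R * ‖b j‖ := by
  have hne : ∀ i, 0 < ‖b i‖ := fun i => norm_pos_iff.2 (b.linearIndependent.ne_zero i)
  have h0 := gliding_hump b hb
  simp only [not_forall] at h0
  obtain ⟨a, ε, hε, h⟩ := h0
  have key : ∀ i j, a ≤ i → a ≤ j → ε * ‖b j‖ ≤ ‖b i‖ := by
    intro i j hi hj
    by_contra hlt
    have hlt := not_le.1 hlt
    refine h ⟨{i}, fun _ => j, fun _ => ((‖b j‖⁻¹ : ℝ) : 𝕜), ?_, ?_, ?_, ?_⟩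
    · intro k hk
      rw [Finset.mem_singleton] at hk
      exact ⟨hk ▸ hi, hj⟩
    · simp
    · rw [Finset.sum_singleton, norm_smul, RCLike.norm_ofReal, abs_of_pos (inv_pos.2 (hne j)),
        inv_mul_le_iff₀ (hne j)]
      linarith [mul_comm ε ‖b j‖]
    · rw [Finset.sum_singleton, norm_smul, RCLike.norm_ofReal, abs_of_pos (inv_pos.2 (hne j)),
        inv_mul_cancel₀ (hne j).ne']
  obtain ⟨L, hL, hLb⟩ : ∃ L : ℝ, 0 < L ∧ ∀ j, L ≤ ‖b j‖ := by
    obtain ⟨j₀, -, hj₀⟩ := Finset.exists_min_image (range (a + 1)) (fun j => ‖b j‖) ⟨0, by simp⟩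
    refine ⟨min ‖b j₀‖ (ε * ‖b a‖), lt_min (hne _) (mul_pos hε (hne _)), fun j => ?_⟩
    rcases le_total j a with hj | hj
    · exact (min_le_left _ _).trans (hj₀ j (by simp; omega))
    · exact (min_le_right _ _).trans (key j a hj le_rfl)
  obtain ⟨U, hU, hUb⟩ : ∃ U : ℝ, 0 < U ∧ ∀ i, ‖b i‖ ≤ U := by
    obtain ⟨j₀, -, hj₀⟩ := Finset.exists_max_image (range (a + 1)) (fun j => ‖b j‖) ⟨0, by simp⟩
    refine ⟨max ‖b j₀‖ (ε⁻¹ * ‖b a‖), lt_max_of_lt_left (hne _), fun j => ?_⟩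
    rcases le_total j a with hj | hj
    · exact (hj₀ j (by simp; omega)).trans (le_max_left _ _)
    · refine le_trans ?_ (le_max_right _ _)
      rw [← div_eq_inv_mul, le_div_iff₀ hε, mul_comm]
      exact key a j le_rfl hj
  refine ⟨U / L, div_pos hU hL, fun i j => ?_⟩
  calc ‖b i‖ ≤ U := hUb i
    _ = U / L * L := by field_simp
    _ ≤ U / L * ‖b j‖ := mul_le_mul_of_nonneg_left (hLb j) (div_pos hU hL).le

end Pool.Agent.SYP
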