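import Mathlib
import Pool.Agent.SYP.Defs
import Pool.Agent.SYP.R_hump
import Pool.Agent.SYP.R_sn
import Pool.Agent.SYP.R_cb
namespace Pool.Agent.SYP

open Filter Topology Finset

variable {𝕜 : Type*} {X : Type*} [RCLike 𝕜] [NormedAddCommGroup X] [NormedSpace 𝕜 X]

private theorem inj_coord_self (b : SchauderBasis 𝕜 X) (i : ℕ) : b.coord i (b i) = 1 := by
  have h1 := b.ortho i i
  simp only [Pi.single, Function.update_self] at h1
  exact h1

private theorem inj_coord_ne (b : SchauderBasis 𝕜 X) {i j : ℕ} (h : i ≠ j) : b.coord i (b j) = 0 := by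
  have h1 := b.ortho i j
  rw [h1]
  unfold Pi.single Function.update
  rw [dif_neg h]
  rfl

/-- Uniform bound for partial injections. Suppose it fails. Given `a, ε`, choose `(s, σ, c)` with
`‖∑_s c_i b_{σ i}‖ > K ‖x‖`, `x = ∑_s c_i b_i`, `K` large. For each `i ∈ s`:
`‖c_i b_i‖ ≤ C ‖x‖` (`exists_coord_bound`, `coord_i x = c_i`), hence `‖c_i b_j‖ ≤ R C ‖x‖` for all `j`
(`exists_ratio_bound`). Remove from `s` the at most `a` indices `i < a` and the at most `a` indices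
with `σ i < a`: `‖∑_{s'} c_i b_i‖ ≤ (1 + 2 a C) ‖x‖` and
`‖∑_{s'} c_i b_{σ i}‖ ≥ (K - 2 a R C) ‖x‖`, `x ≠ 0`; divide `c` by the last norm and contradict
`gliding_hump`. -/
theorem exists_inj_bound [CompleteSpace X] (b : SchauderBasis 𝕜 X) (hb : IsSymmetric b) :
    ∃ K : ℝ, 1 ≤ K ∧ ∀ (s : Finset ℕ) (σ : ℕ → ℕ), Set.InjOn σ s → ∀ c : ℕ → 𝕜,
      ‖∑ i ∈ s, c i • b (σ i)‖ ≤ K * ‖∑ i ∈ s, c i • b i‖ := by
  classical
  by_contra hcon
  push Not at hcon
  obtain ⟨C, hC1, -, hC⟩ := exists_coord_bound b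
  obtain ⟨R, hR, hRb⟩ := exists_ratio_bound b hb
  refine gliding_hump b hb fun a ε hε => ?_
  have hC0 : 0 < C := by linarith
  have ha : (0 : ℝ) ≤ a := Nat.cast_nonneg a
  obtain ⟨L, hL⟩ : ∃ L : ℝ, L = (1 + 2 * a * C) / ε := ⟨_, rfl⟩
  have hL0 : 0 < L := by rw [hL]; positivity
  obtain ⟨s, σ, hσ, c, hc⟩ := hcon (2 * a * (R * C) + L + 1) (by
    have : 0 ≤ 2 * a * (R * C) := by positivity
    linarith)
  obtain ⟨x, hx⟩ : ∃ x, x = ∑ i ∈ s, c i • b i := ⟨_, rfl⟩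
  obtain ⟨y, hy⟩ : ∃ y, y = ∑ i ∈ s, c i • b (σ i) := ⟨_, rfl⟩
  rw [← hx, ← hy] at hc
  have hcoord : ∀ i ∈ s, b.coord i x = c i := by
    intro i hi
    rw [hx, map_sum]
    rw [Finset.sum_eq_single i]
    · rw [map_smul, inj_coord_self, smul_eq_mul, mul_one]
    · intro j _ hj
      rw [map_smul, inj_coord_ne b hj.symm, smul_zero]
    · exact fun h => absurd hi h
  have h1 : ∀ i ∈ s, ‖c i • b i‖ ≤ C * ‖x‖ := by
    intro i hi
    rw [norm_smul, ← hcoord i hi]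
    exact hC i x
  have h2 : ∀ i ∈ s, ∀ j, ‖c i • b j‖ ≤ R * C * ‖x‖ := by
    intro i hi j
    have h3 := hRb j i
    have h4 := h1 i hi
    rw [norm_smul] at h4 ⊢
    calc ‖c i‖ * ‖b j‖ ≤ ‖c i‖ * (R * ‖b i‖) := mul_le_mul_of_nonneg_left h3 (norm_nonneg _)
      _ = R * (‖c i‖ * ‖b i‖) := by ring
      _ ≤ R * (C * ‖x‖) := mul_le_mul_of_nonneg_left h4 hR.le
      _ = R * C * ‖x‖ := by ring
  obtain ⟨s', hs'⟩ : ∃ s', s' = s.filter fun i => a ≤ i ∧ a ≤ σ i := ⟨_, rfl⟩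
  obtain ⟨t, ht⟩ : ∃ t, t = s.filter fun i => ¬ (a ≤ i ∧ a ≤ σ i) := ⟨_, rfl⟩
  have htc : (t.card : ℝ) ≤ 2 * a := by
    have h3 : t ⊆ (s.filter fun i => i < a) ∪ (s.filter fun i => σ i < a) := by
      intro i hi
      rw [ht, Finset.mem_filter] at hi
      rw [Finset.mem_union, Finset.mem_filter, Finset.mem_filter]
      by_cases h : i < a
      · exact Or.inl ⟨hi.1, h⟩
      · right
        refine ⟨hi.1, ?_⟩
        by_contra h'
        exact hi.2 ⟨not_lt.1 h, not_lt.1 h'⟩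
    have h4 : (s.filter fun i => i < a).card ≤ a := by
      calc (s.filter fun i => i < a).card ≤ (Finset.range a).card :=
            Finset.card_le_card fun i hi => Finset.mem_range.2 (Finset.mem_filter.1 hi).2
        _ = a := Finset.card_range a
    have h5 : (s.filter fun i => σ i < a).card ≤ a := by
      calc (s.filter fun i => σ i < a).card ≤ (Finset.range a).card := by
            refine Finset.card_le_card_of_injOn σ ?_ ?_
            · intro i hi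
              exact Finset.mem_coe.2 (Finset.mem_range.2 (Finset.mem_filter.1 (Finset.mem_coe.1 hi)).2)
            · intro i hi j hj h
              exact hσ (Finset.mem_coe.2 (Finset.mem_filter.1 (Finset.mem_coe.1 hi)).1)
                (Finset.mem_coe.2 (Finset.mem_filter.1 (Finset.mem_coe.1 hj)).1) h
        _ = a := Finset.card_range a
    have h6 := (Finset.card_le_card h3).trans (Finset.card_union_le _ _)
    have h7 : t.card ≤ 2 * a := by omega
    exact_mod_cast h7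
  have hsplit : ∀ f : ℕ → X, ∑ i ∈ s', f i + ∑ i ∈ t, f i = ∑ i ∈ s, f i := by
    intro f
    rw [hs', ht]
    exact Finset.sum_filter_add_sum_filter_not s _ f
  have hxp : ‖∑ i ∈ s', c i • b i‖ ≤ (1 + 2 * a * C) * ‖x‖ := by
    have h3 : ∑ i ∈ s', c i • b i = x - ∑ i ∈ t, c i • b i := by
      rw [eq_sub_iff_add_eq, hx]
      exact hsplit _
    rw [h3]
    refine (norm_sub_le _ _).trans ?_
    have h4 : ‖∑ i ∈ t, c i • b i‖ ≤ t.card * (C * ‖x‖) := by
      refine (norm_sum_le _ _).trans ?_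
      rw [← nsmul_eq_mul, ← Finset.sum_const]
      refine Finset.sum_le_sum fun i hi => h1 i ?_
      rw [ht] at hi
      exact (Finset.mem_filter.1 hi).1
    have h5 : (t.card : ℝ) * (C * ‖x‖) ≤ 2 * a * (C * ‖x‖) :=
      mul_le_mul_of_nonneg_right htc (by positivity)
    linarith
  have hyp : ‖y‖ - 2 * a * (R * C) * ‖x‖ ≤ ‖∑ i ∈ s', c i • b (σ i)‖ := by
    have h3 : y = ∑ i ∈ s', c i • b (σ i) + ∑ i ∈ t, c i • b (σ i) := by
      rw [hy]
      exact (hsplit _).symm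
    have h4 : ‖∑ i ∈ t, c i • b (σ i)‖ ≤ t.card * (R * C * ‖x‖) := by
      refine (norm_sum_le _ _).trans ?_
      rw [← nsmul_eq_mul, ← Finset.sum_const]
      refine Finset.sum_le_sum fun i hi => h2 i ?_ _
      rw [ht] at hi
      exact (Finset.mem_filter.1 hi).1
    have h5 : (t.card : ℝ) * (R * C * ‖x‖) ≤ 2 * a * (R * C * ‖x‖) :=
      mul_le_mul_of_nonneg_right htc (by positivity)
    have h6 := norm_add_le (∑ i ∈ s', c i • b (σ i)) (∑ i ∈ t, c i • b (σ i))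
    rw [← h3] at h6
    linarith
  have hy1 : (L + 1) * ‖x‖ < ‖∑ i ∈ s', c i • b (σ i)‖ := by
    have : (2 * a * (R * C) + L + 1) * ‖x‖ = 2 * a * (R * C) * ‖x‖ + (L + 1) * ‖x‖ := by ring
    linarith
  have hx0 : 0 ≤ ‖x‖ := norm_nonneg x
  have hy0 : 0 < ‖∑ i ∈ s', c i • b (σ i)‖ := by
    have : 0 ≤ (L + 1) * ‖x‖ := by positivity
    linarith
  obtain ⟨r, hr⟩ : ∃ r, r = ‖∑ i ∈ s', c i • b (σ i)‖ := ⟨_, rfl⟩
  rw [← hr] at hy0 hy1
  have hscal : ∀ f : ℕ → X, ∑ i ∈ s', (((r⁻¹ : ℝ) : 𝕜) * c i) • f i = ((r⁻¹ : ℝ) : 𝕜) • ∑ i ∈ s', c i • f i := by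
    intro f
    rw [Finset.smul_sum]
    exact Finset.sum_congr rfl fun i _ => by rw [mul_smul]
  have hnr : ‖((r⁻¹ : ℝ) : 𝕜)‖ = r⁻¹ := by
    rw [RCLike.norm_ofReal, abs_of_pos (inv_pos.2 hy0)]
  refine ⟨s', σ, fun i => ((r⁻¹ : ℝ) : 𝕜) * c i, ?_, ?_, ?_, ?_⟩
  · intro i hi
    rw [hs', Finset.mem_filter] at hi
    exact hi.2
  · refine hσ.mono ?_
    intro i hi
    rw [hs', Finset.coe_filter] at hi
    exact Finset.mem_coe.2 hi.1
  · rw [hscal, norm_smul, hnr, inv_mul_le_iff₀ hy0]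
    refine hxp.trans ?_
    have h3 : 1 + 2 * a * C = L * ε := by rw [hL]; field_simp
    rw [h3]
    have h4 : L * ‖x‖ ≤ r := by
      have : (L + 1) * ‖x‖ = L * ‖x‖ + ‖x‖ := by ring
      linarith
    calc L * ε * ‖x‖ = L * ‖x‖ * ε := by ring
      _ ≤ r * ε := mul_le_mul_of_nonneg_right h4 hε.le
  · rw [hscal, norm_smul, hnr, ← hr, inv_mul_cancel₀ hy0.ne']

end Pool.Agent.SYP
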