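import Mathlib
import Pool.Agent.SYP.Defs
import Pool.Agent.SYP.R_inj
import Pool.Agent.SYP.R_cb
namespace Pool.Agent.SYP

open Filter Topology Finset

variable {𝕜 : Type*} {X : Type*} [RCLike 𝕜] [NormedAddCommGroup X] [NormedSpace 𝕜 X]

/-- Uniform symmetry. Let `K₂` be from `exists_inj_bound`, `C` from `exists_coord_bound`. For
`t ⊆ s`, `N > max s`, let `τ i = i` on `t`, `τ i = i + N` on `s \\ t` (injective on `s`),
`y = ∑_s c_i b_{τ i}`: `‖y‖ ≤ K₂ ‖∑_s c_i b_i‖` and `P_N y = ∑_t c_i b_i`, so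
`‖∑_t c_i b_i‖ ≤ C K₂ ‖∑_s c_i b_i‖`; then apply `exists_inj_bound` to `t, σ`. `K = C K₂²`. -/
theorem exists_UB [CompleteSpace X] (b : SchauderBasis 𝕜 X) (hb : IsSymmetric b) :
    ∃ K : ℝ, UB b K := by
  classical
  obtain ⟨K₂, hK1, hK⟩ := exists_inj_bound b hb
  obtain ⟨C, hC1, hC, -⟩ := exists_coord_bound b
  have hK2 : 1 ≤ K₂ ^ 2 := one_le_pow₀ hK1
  refine ⟨C * K₂ ^ 2, by nlinarith, ?_⟩
  intro s t hts σ hσ c
  obtain ⟨N, hN⟩ : ∃ N : ℕ, ∀ i ∈ s, i < N :=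
    ⟨s.sup id + 1, fun i hi => Nat.lt_succ_of_le (Finset.le_sup (f := id) hi)⟩
  obtain ⟨τ, hτt, hτs⟩ : ∃ τ : ℕ → ℕ, (∀ i ∈ t, τ i = i) ∧ ∀ i, i ∉ t → τ i = i + N :=
    ⟨fun i => if i ∈ t then i else i + N, fun i hi => if_pos hi, fun i hi => if_neg hi⟩
  have hτ : Set.InjOn τ s := by
    intro i hi j hj hij
    have h1 := hN i hi
    have h2 := hN j hj
    by_cases hit : i ∈ t <;> by_cases hjt : j ∈ t
    · rwa [hτt i hit, hτt j hjt] at hij
    · rw [hτt i hit, hτs j hjt] at hij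
      omega
    · rw [hτs i hit, hτt j hjt] at hij
      omega
    · rw [hτs i hit, hτs j hjt] at hij
      omega
  have h1 := hK s τ hτ c
  have h2 := hC N (∑ i ∈ s, c i • b (τ i))
  have h3 : ∑ i ∈ range N, b.coord i (∑ j ∈ s, c j • b (τ j)) • b i = ∑ i ∈ t, c i • b i := by
    rw [← SchauderBasis.proj_apply, map_sum]
    have h4 : ∀ j ∈ s, SchauderBasis.proj b N (c j • b (τ j)) = if j ∈ t then c j • b j else 0 := by
      intro j hj
      rw [map_smul, SchauderBasis.proj_apply_basis_mem]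
      by_cases hjt : j ∈ t
      · rw [hτt j hjt, if_pos (hN j hj), if_pos hjt]
      · rw [hτs j hjt, if_neg (by omega), if_neg hjt, smul_zero]
    rw [Finset.sum_congr rfl h4, ← Finset.sum_filter]
    refine Finset.sum_congr ?_ fun _ _ => rfl
    ext j
    rw [Finset.mem_filter]
    exact ⟨fun h => h.2, fun h => ⟨hts h, h⟩⟩
  rw [h3] at h2
  have h5 := hK t σ hσ c
  calc ‖∑ i ∈ t, c i • b (σ i)‖ ≤ K₂ * ‖∑ i ∈ t, c i • b i‖ := h5
    _ ≤ K₂ * (C * ‖∑ i ∈ s, c i • b (τ i)‖) := mul_le_mul_of_nonneg_left h2 (by linarith)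
    _ ≤ K₂ * (C * (K₂ * ‖∑ i ∈ s, c i • b i‖)) :=
        mul_le_mul_of_nonneg_left (mul_le_mul_of_nonneg_left h1 (by linarith)) (by linarith)
    _ = C * K₂ ^ 2 * ‖∑ i ∈ s, c i • b i‖ := by ring

end Pool.Agent.SYP
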