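import Mathlib
import Pool.Agent.SYP.Defs
import Pool.Agent.SYP.R_ub
import Pool.Agent.SYP.R_fac
import Pool.Agent.SYP.R_compl
import Pool.Agent.SYP.R_pel
import Pool.Agent.SYP.R_amp
import Pool.Agent.SYP.R_ampc
import Pool.Agent.SYP.R_self
import Pool.Agent.SYP.R_selfc
import Pool.Agent.SYP.R_dbl
import Pool.Agent.SYP.R_dec
import Pool.Agent.SYP.R_samp

namespace Pool.Agent.SYP

open Filter Topology Finset

variable {𝕜 : Type*} {X : Type*} [RCLike 𝕜] [NormedAddCommGroup X] [NormedSpace 𝕜 X]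

theorem idem_compl (P : X →L[𝕜] X) (hP : P ∘L P = P) :
    (ContinuousLinearMap.id 𝕜 X - P) ∘L (ContinuousLinearMap.id 𝕜 X - P) =
      ContinuousLinearMap.id 𝕜 X - P := by
  ext x
  have h := congrArg (fun T : X →L[𝕜] X => T x) hP
  simp only [ContinuousLinearMap.comp_apply] at h
  simp [ContinuousLinearMap.comp_apply, h]

theorem compl_compl (P : X →L[𝕜] X) :
    ContinuousLinearMap.id 𝕜 X - (ContinuousLinearMap.id 𝕜 X - P) = P := by
  ext x
  simp

/-- `X ≃ X × range P` if `range P ≃ range P × range P` and `X ≃ range P × Z`. -/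
theorem absorb_of_sq {Y Z : Type*} [NormedAddCommGroup Y] [NormedSpace 𝕜 Y]
    [NormedAddCommGroup Z] [NormedSpace 𝕜 Z] (hX : Nonempty (X ≃L[𝕜] Y × Z))
    (hY : Nonempty (Y ≃L[𝕜] Y × Y)) : Nonempty (X ≃L[𝕜] X × Y) := by
  obtain ⟨e⟩ := hX
  obtain ⟨f⟩ := hY
  refine ⟨?_⟩
  exact e.trans <| (f.prodCongr (ContinuousLinearEquiv.refl 𝕜 Z)).trans <|
    (ContinuousLinearEquiv.prodAssoc 𝕜 Y Y Z).trans <|
    (ContinuousLinearEquiv.prodComm 𝕜 Y (Y × Z)).trans <|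
    e.symm.prodCongr (ContinuousLinearEquiv.refl 𝕜 Y)

theorem absorb_both [CompleteSpace X] (b : SchauderBasis 𝕜 X) {K : ℝ} (h : UB b K)
    (P : X →L[𝕜] X) (hP : P ∘L P = P) (hA : Amplifiable b P ∨ SelfSimilar b P) :
    Nonempty (X ≃L[𝕜] X × LinearMap.range P.toLinearMap) ∧
    Nonempty (X ≃L[𝕜] X × LinearMap.range (ContinuousLinearMap.id 𝕜 X - P).toLinearMap) := by
  rcases hA with hA | hS
  · exact ⟨amp_absorb b h P hP hA, amp_absorb b h _ (idem_compl P hP) (amp_compl b h P hA)⟩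
  · have h1 := (range_decomp P hP).1
    have h2 := (range_decomp _ (idem_compl P hP)).1
    rw [compl_compl] at h2
    exact ⟨absorb_of_sq h1 (self_sq b h P hP hS),
      absorb_of_sq h2 (self_sq b h _ (idem_compl P hP) (self_compl b P hS))⟩

theorem main [CompleteSpace X] (b : SchauderBasis 𝕜 X) (hb : IsSymmetric b)
    (P : X →L[𝕜] X) (hP : P ∘L P = P) (hA : Amplifiable b P ∨ SelfSimilar b P) :
    Nonempty (X ≃L[𝕜] X × LinearMap.range P.toLinearMap) ∧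
    Nonempty (X ≃L[𝕜] X × LinearMap.ker P.toLinearMap) ∧
    (Nonempty (X ≃L[𝕜] LinearMap.range P.toLinearMap) ∨
      Nonempty (X ≃L[𝕜] LinearMap.ker P.toLinearMap)) := by
  obtain ⟨K, h⟩ := exists_UB b hb
  have hsq := X_sq b h
  obtain ⟨h1, h2⟩ := absorb_both b h P hP hA
  have hker := (range_decomp P hP).2
  rw [← hker]
  refine ⟨h1, h2, ?_⟩
  rcases factor_or b h P with ⟨A, B, hAB⟩ | ⟨A, B, hAB⟩
  · obtain ⟨V, hV⟩ := range_equiv_prod P A B hAB
    exact Or.inl (pelczynski hsq hV h1)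
  · obtain ⟨V, hV⟩ := range_equiv_prod _ A B hAB
    exact Or.inr (pelczynski hsq hV h2)

theorem amp_of_l1 [CompleteSpace X] (b : SchauderBasis 𝕜 X) (hb : IsSymmetric b)
    (P : X →L[𝕜] X) (M : ℝ)
    (hr : ∀ i N, ∑ j ∈ range N, ‖b.coord i (P (b j))‖ ≤ M)
    (hc : ∀ j N, ∑ i ∈ range N, ‖b.coord i (P (b j))‖ ≤ M) : Amplifiable b P := by
  obtain ⟨K, h⟩ := exists_UB b hb
  exact amplifiable_of_l1 b h P M hr hc

end Pool.Agent.SYP
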